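import Mathlib

/-!
The averaging argument: if most points lie in many of the sets `H σ`, then some union of the
`H σ` and the union of the others both cover almost everything.
-/

namespace Pool.Agent.Lib.A54

open MeasureTheory Set Filter
open scoped ENNReal Topology

variable {α : Type*} [MeasurableSpace α] (μ : Measure α) {ι : Type*} [Fintype ι]

open Classical in
/-- The indices `σ` with `x ∈ H σ`. -/
noncomputable def sig (H : ι → Set α) (x : α) : Finset ι := Finset.univ.filter fun σ => x ∈ H σ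

omit [MeasurableSpace α] in
theorem mem_sig {H : ι → Set α} {x : α} {σ : ι} : σ ∈ sig H x ↔ x ∈ H σ := by
  classical
  simp [sig]

theorem measurableSet_card_lt {H : ι → Set α} (hH : ∀ σ, MeasurableSet (H σ)) (M : ℕ) :
    MeasurableSet {x | (sig H x).card < M} := by
  classical
  have h1 : ∀ x, (sig H x).card = ∑ σ : ι, (H σ).indicator (fun _ => (1 : ℕ)) x := by
    intro x
    rw [sig, Finset.card_filter]
    rfl
  have h2 : Measurable fun x => ∑ σ : ι, (H σ).indicator (fun _ => (1 : ℕ)) x :=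
    Finset.measurable_sum _ fun σ _ => measurable_const.indicator (hH σ)
  have h3 : {x | (sig H x).card < M} =
      (fun x => ∑ σ : ι, (H σ).indicator (fun _ => (1 : ℕ)) x) ⁻¹' Iio M := by
    ext x
    simp only [mem_ofPred_eq, mem_preimage, mem_Iio, h1]
  rw [h3]
  exact h2 measurableSet_Iio

omit [MeasurableSpace α] in
theorem mem_diff_iff {H : ι → Set α} {G : Set α} {x : α} (u : Finset ι) :
    x ∈ G \ ⋃ σ ∈ u, H σ ↔ x ∈ G ∧ Disjoint u (sig H x) := by
  classical
  rw [Set.mem_sdiff, Finset.disjoint_left]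
  simp only [mem_iUnion, not_exists, mem_sig]

theorem card_disjoint [DecidableEq ι] (T : Finset ι) :
    ((Finset.univ : Finset (Finset ι)).filter fun u => Disjoint u T).card =
      2 ^ (Fintype.card ι - T.card) := by
  have h : ((Finset.univ : Finset (Finset ι)).filter fun u => Disjoint u T) = (Tᶜ).powerset := by
    ext u
    simp only [Finset.mem_filter, Finset.mem_univ, true_and, Finset.mem_powerset]
    exact (Finset.subset_compl_iff_disjoint_right).symm
  rw [h, Finset.card_powerset, Finset.card_compl]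

theorem sum_bad_le {H : ι → Set α} (hH : ∀ σ, MeasurableSet (H σ)) {G : Set α}
    (hG : MeasurableSet G) (M : ℕ) :
    ∑ u : Finset ι, μ (G \ ⋃ σ ∈ u, H σ) ≤
      2 ^ Fintype.card ι * (μ G / 2 ^ M + μ {x | x ∈ G ∧ (sig H x).card < M}) := by
  classical
  set B : Finset ι → Set α := fun u => G \ ⋃ σ ∈ u, H σ with hB
  have hBm : ∀ u, MeasurableSet (B u) := fun u =>
    hG.diff (Finset.measurableSet_biUnion _ fun σ _ => hH σ)
  set D : Set α := {x | x ∈ G ∧ (sig H x).card < M} with hD
  have hDm : MeasurableSet D := hG.inter (measurableSet_card_lt hH M)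
  have e1 : ∑ u : Finset ι, μ (B u) = ∫⁻ x, ∑ u : Finset ι, (B u).indicator 1 x ∂μ := by
    rw [lintegral_finsetSum _ fun u _ => measurable_one.indicator (hBm u)]
    exact Finset.sum_congr rfl fun u _ => (lintegral_indicator_one (hBm u)).symm
  have e2 : ∀ x, ∑ u : Finset ι, (B u).indicator (1 : α → ℝ≥0∞) x ≤
      2 ^ Fintype.card ι * (G.indicator (fun _ => (2 ^ M)⁻¹) x + D.indicator 1 x) := by
    intro x
    by_cases hxG : x ∈ G
    · have h1 : ∑ u : Finset ι, (B u).indicator (1 : α → ℝ≥0∞) x =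
          ((2 ^ (Fintype.card ι - (sig H x).card) : ℕ) : ℝ≥0∞) := by
        rw [← card_disjoint (sig H x), Finset.card_filter, Nat.cast_sum]
        refine Finset.sum_congr rfl fun u _ => ?_
        by_cases hu : Disjoint u (sig H x)
        · rw [if_pos hu, indicator_of_mem ((mem_diff_iff u).2 ⟨hxG, hu⟩)]
          simp
        · rw [if_neg hu, indicator_of_notMem fun h => hu ((mem_diff_iff u).1 h).2]
          simp
      rw [h1]
      by_cases hcard : (sig H x).card < M
      · have hxD : x ∈ D := ⟨hxG, hcard⟩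
        rw [indicator_of_mem hxD]
        calc ((2 ^ (Fintype.card ι - (sig H x).card) : ℕ) : ℝ≥0∞)
            ≤ ((2 ^ Fintype.card ι : ℕ) : ℝ≥0∞) := by
              exact_mod_cast Nat.pow_le_pow_right (by norm_num) (Nat.sub_le _ _)
          _ = 2 ^ Fintype.card ι * 1 := by push_cast; rw [mul_one]
          _ ≤ _ := by
            gcongr
            exact le_add_self
      · push Not at hcard
        rw [indicator_of_mem hxG]
        have hle : (sig H x).card ≤ Fintype.card ι := Finset.card_le_univ _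
        calc ((2 ^ (Fintype.card ι - (sig H x).card) : ℕ) : ℝ≥0∞)
            ≤ ((2 ^ (Fintype.card ι - M) : ℕ) : ℝ≥0∞) := by
              exact_mod_cast Nat.pow_le_pow_right (by norm_num) (Nat.sub_le_sub_left hcard _)
          _ = 2 ^ (Fintype.card ι - M) := by push_cast; rfl
          _ = 2 ^ (Fintype.card ι - M) * (2 ^ M * (2 ^ M)⁻¹) := by
            rw [ENNReal.mul_inv_cancel (by positivity) (by finiteness), mul_one]
          _ = 2 ^ Fintype.card ι * (2 ^ M)⁻¹ := by
            rw [← mul_assoc, ← pow_add, Nat.sub_add_cancel (hcard.trans hle)]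
          _ ≤ _ := by
            gcongr
            exact le_self_add
    · have h1 : ∑ u : Finset ι, (B u).indicator (1 : α → ℝ≥0∞) x = 0 := by
        refine Finset.sum_eq_zero fun u _ => ?_
        exact indicator_of_notMem (fun h => hxG h.1) _
      rw [h1]
      exact bot_le
  rw [e1]
  calc ∫⁻ x, ∑ u : Finset ι, (B u).indicator (1 : α → ℝ≥0∞) x ∂μ
      ≤ ∫⁻ x, 2 ^ Fintype.card ι * (G.indicator (fun _ => (2 ^ M)⁻¹) x + D.indicator 1 x) ∂μ :=
        lintegral_mono e2
    _ = 2 ^ Fintype.card ι * (μ G / 2 ^ M + μ D) := by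
        rw [lintegral_const_mul' _ _ (by finiteness),
          lintegral_add_left (measurable_const.indicator hG), lintegral_indicator_one hDm,
          lintegral_indicator hG, lintegral_const, Measure.restrict_apply_univ, mul_comm (_)⁻¹,
          ← div_eq_mul_inv]

/-- Some `u` is good together with its complement. -/
theorem exists_good_split {H : ι → Set α} (hH : ∀ σ, MeasurableSet (H σ)) {G : Set α}
    (hG : MeasurableSet G) (M : ℕ) :
    ∃ u : Set ι, μ (G \ ⋃ σ ∈ u, H σ) + μ (G \ ⋃ σ ∈ uᶜ, H σ) ≤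
      2 * (μ G / 2 ^ M + μ {x | x ∈ G ∧ (sig H x).card < M}) := by
  classical
  by_contra hcon
  push Not at hcon
  set K : ℝ≥0∞ := μ G / 2 ^ M + μ {x | x ∈ G ∧ (sig H x).card < M} with hK
  have h1 := sum_bad_le μ hH hG M
  have h2 : ∑ u : Finset ι, μ (G \ ⋃ σ ∈ uᶜ, H σ) = ∑ u : Finset ι, μ (G \ ⋃ σ ∈ u, H σ) :=
    Fintype.sum_equiv (⟨fun u => uᶜ, fun u => uᶜ, compl_compl, compl_compl⟩ : Finset ι ≃ Finset ι)
      (fun u => μ (G \ ⋃ σ ∈ uᶜ, H σ)) (fun u => μ (G \ ⋃ σ ∈ u, H σ)) fun u => rfl
  have h3 : ∑ _u : Finset ι, 2 * K <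
      ∑ u : Finset ι, (μ (G \ ⋃ σ ∈ u, H σ) + μ (G \ ⋃ σ ∈ uᶜ, H σ)) := by
    refine ENNReal.sum_lt_sum_of_nonempty Finset.univ_nonempty fun u _ => ?_
    have := hcon (↑u : Set ι)
    have e : ∀ v : Finset ι, (⋃ σ ∈ v, H σ) = ⋃ σ ∈ (↑v : Set ι), H σ := fun v => by simp
    rw [e, e, Finset.coe_compl]
    exact this
  rw [Finset.sum_add_distrib, h2, Finset.sum_const, Finset.card_univ, Fintype.card_finset,
    nsmul_eq_mul] at h3
  have h4 := h3.trans_le (add_le_add h1 h1)
  have h5 : ((2 ^ Fintype.card ι : ℕ) : ℝ≥0∞) * (2 * K) =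
      2 ^ Fintype.card ι * K + 2 ^ Fintype.card ι * K := by
    push_cast
    ring
  rw [h5] at h4
  exact lt_irrefl _ h4

end Pool.Agent.Lib.A54
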