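import Pool.Agent.Lib.A54.Defs

/-!
The avoid lemma: a finite-set-valued map cannot meet infinitely many disjoint sets on a large set
of arguments.
-/

namespace Pool.Agent.Lib.A54

open MeasureTheory Set TopologicalSpace Filter MeasureTheory.Measure
open scoped ENNReal Topology

theorem avoid_aux {α β : Type*} [MeasurableSpace α] (μ : Measure α) {P : Set α} (hP : μ P ≠ ∞)
    (F : α → Set β) (hF : ∀ x, (F x).Finite) (T : ℕ → Set β)
    (hT : Pairwise (Function.onFun Disjoint T)) {ε : ℝ≥0∞} (hε : ε ≠ 0) :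
    ∃ k, μ P ≤ μ {x | x ∈ P ∧ Disjoint (F x) (T k)} + ε := by
  by_contra hcon
  push Not at hcon
  set X : ℕ → Set α := fun k => {x | x ∈ P ∧ Disjoint (F x) (T k)} with hX
  set H : ℕ → Set α := fun k => toMeasurable μ (X k) with hH
  have hHm : ∀ k, MeasurableSet (H k) := fun k => measurableSet_toMeasurable _ _
  have hXfin : ∀ k, μ (X k) ≠ ∞ := fun k => ne_top_of_le_ne_top hP (measure_mono fun x hx => hx.1)
  have hbig : ∀ k, ε ≤ μ ((H k)ᶜ ∩ P) := by
    intro k
    have h1 : μ (P ∩ H k) + μ (P \ H k) = μ P := measure_inter_add_sdiff P (hHm k)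
    have h2 : μ (P ∩ H k) ≤ μ (X k) :=
      (measure_mono inter_subset_right).trans (measure_toMeasurable (X k)).le
    have h3 : μ (X k) + ε ≤ μ (X k) + μ (P \ H k) := by
      refine (hcon k).le.trans ?_
      rw [← h1]
      exact add_le_add h2 le_rfl
    have h4 := (ENNReal.add_le_add_iff_left (hXfin k)).1 h3
    have h5 : P \ H k = (H k)ᶜ ∩ P := by rw [sdiff_eq, inter_comm]
    rwa [h5] at h4
  set A : ℕ → Set α := fun n => ⋃ k ∈ Ici n, (H k)ᶜ with hA
  have hAm : ∀ n, MeasurableSet (A n) := fun n =>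
    MeasurableSet.biUnion (to_countable _) (fun k _ => (hHm k).compl)
  have hAanti : Antitone A := by
    intro n m hnm
    exact biUnion_subset_biUnion_left (Ici_subset_Ici.2 hnm)
  have hfin : (μ.restrict P) (A 0) ≠ ∞ := by
    rw [Measure.restrict_apply (hAm 0)]
    exact ne_top_of_le_ne_top hP (measure_mono inter_subset_right)
  have hL : ε ≤ (μ.restrict P) (⋂ n, A n) := by
    rw [hAanti.measure_iInter (fun n => (hAm n).nullMeasurableSet) ⟨0, hfin⟩]
    refine le_iInf fun n => ?_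
    rw [Measure.restrict_apply (hAm n)]
    refine (hbig n).trans (measure_mono (inter_subset_inter_left _ ?_))
    exact subset_biUnion_of_mem (u := fun k => (H k)ᶜ) (mem_Ici.2 le_rfl)
  have hne : (μ.restrict P) (⋂ n, A n) ≠ 0 := fun h => hε (le_antisymm (h ▸ hL) bot_le)
  rw [Measure.restrict_apply (MeasurableSet.iInter hAm)] at hne
  obtain ⟨x, hxA, hxP⟩ := nonempty_of_measure_ne_zero hne
  have hinf : {k | ¬ Disjoint (F x) (T k)}.Infinite := by
    rw [Set.infinite_iff_exists_gt]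
    intro n
    have hx1 := mem_iInter.1 hxA (n + 1)
    obtain ⟨k, hk, hxk⟩ := mem_iUnion₂.1 hx1
    refine ⟨k, ?_, Nat.lt_of_succ_le (mem_Ici.1 hk)⟩
    intro hd
    exact hxk (subset_toMeasurable μ (X k) ⟨hxP, hd⟩)
  have hg : ∀ k, ¬ Disjoint (F x) (T k) → ∃ y, y ∈ F x ∧ y ∈ T k := fun k hk =>
    not_disjoint_iff.1 hk
  obtain ⟨k0, hk0⟩ := hinf.nonempty
  have hne0 : Nonempty β := ⟨(hg k0 hk0).choose⟩
  choose! g hgF hgT using hg
  refine hinf (Set.Finite.of_injOn (f := g) (t := F x) (fun k hk => hgF k hk) ?_ (hF x))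
  intro i hi j hj hij
  by_contra hne'
  have h1 := hgT i hi
  have h2 := hgT j hj
  rw [← hij] at h2
  exact disjoint_left.1 (hT hne') h1 h2

theorem avoid {α β : Type*} [MeasurableSpace α] (μ : Measure α) {P : Set α} (hP : μ P ≠ ∞)
    (F : α → Set β) (hF : ∀ x, (F x).Finite) (T : ℕ → Set β)
    (hT : Pairwise (Function.onFun Disjoint T)) {ε : ℝ≥0∞} (hε : ε ≠ 0) :
    ∀ᶠ k in atTop, μ P ≤ μ {x | x ∈ P ∧ Disjoint (F x) (T k)} + ε := by
  by_contra hcon
  obtain ⟨φ, hφ, hφ'⟩ := extraction_of_frequently_atTop (not_eventually.1 hcon)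
  obtain ⟨k, hk⟩ := avoid_aux μ hP F hF (fun k => T (φ k))
    (fun i j hij => hT (hφ.injective.ne hij)) hε
  exact hφ' k hk

theorem avoid_finset {α β ι : Type*} [MeasurableSpace α] (μ : Measure α) [IsFiniteMeasure μ]
    (I : Finset ι) (R : ι → Set α) (F : ι → α → Set β) (hF : ∀ s x, (F s x).Finite)
    (T : ℕ → Set β) (hT : Pairwise (Function.onFun Disjoint T)) {ε : ℝ≥0∞} (hε : ε ≠ 0) :
    ∃ k, ∀ s ∈ I, μ (R s) ≤ μ {x | x ∈ R s ∧ Disjoint (F s x) (T k)} + ε := by
  have h : ∀ᶠ k in atTop, ∀ s ∈ I, μ (R s) ≤ μ {x | x ∈ R s ∧ Disjoint (F s x) (T k)} + ε :=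
    (Filter.eventually_all_finset I).2 fun s _ => avoid μ (measure_ne_top _ _) (F s) (hF s) T hT hε
  exact h.exists

end Pool.Agent.Lib.A54
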