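import Pool.Agent.Lib.A54.Defs

/-!
MP_a54a32_lc, full answer: row I. From a sequence of sets of codes (each point in only finitely
many of them) to a function `L` that is large on all the coordinates of almost every point.
-/

namespace Pool.Agent.Lib.A54

open MeasureTheory Set Filter
open scoped ENNReal Topology

section
variable {α : Type*} [MeasurableSpace α] (μ : Measure α) [IsFiniteMeasure μ]

omit [IsFiniteMeasure μ] in
theorem ex_of_sets (D : Set α) (P : ℕ → Set α) (m : ℕ → ℕ) (G : ℕ → ℕ → α → α)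
    (hG : ∀ s, ∀ i < m s, ∀ x ∈ P s, G s i x ∈ D)
    (NS : ∀ s, ∀ i < m s, ∀ Z ⊆ D, μ Z = 0 → μ {x | x ∈ P s ∧ G s i x ∈ Z} = 0)
    (T : ℕ → Set α) (hfin : μ {y | y ∈ D ∧ {i | y ∈ T i}.Infinite} = 0)
    (hT : ∃ᶠ i in atTop, ∀ s ≤ i,
      μ (P s) ≤ μ {x | x ∈ P s ∧ ∀ l < m s, G s l x ∈ T i} + (2⁻¹ : ℝ≥0∞) ^ i) :
    ∃ L : α → ℕ, ∀ s n, μ {x | x ∈ P s ∧ ∀ l < m s, n ≤ L (G s l x)} = μ (P s) := by
  classical
  refine ⟨fun y => sSup {i | y ∈ T i}, fun s n => ?_⟩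
  refine le_antisymm (measure_mono fun x hx => hx.1) ?_
  set Z₀ : Set α := {y | y ∈ D ∧ {i | y ∈ T i}.Infinite} with hZ₀
  have hnull : μ (⋃ l ∈ Finset.range (m s), {x | x ∈ P s ∧ G s l x ∈ Z₀}) = 0 := by
    refine (measure_biUnion_null_iff (Finset.range (m s)).countable_toSet).mpr ?_
    intro l hl
    exact NS s l (Finset.mem_range.mp hl) Z₀ (fun y hy => hy.1) hfin
  have hsub : ∀ i, n ≤ i → {x | x ∈ P s ∧ ∀ l < m s, G s l x ∈ T i} ⊆
      {x | x ∈ P s ∧ ∀ l < m s, n ≤ sSup {i | G s l x ∈ T i}} ∪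
        ⋃ l ∈ Finset.range (m s), {x | x ∈ P s ∧ G s l x ∈ Z₀} := by
    intro i hi x hx
    by_cases hc : ∃ l, l < m s ∧ G s l x ∈ Z₀
    · obtain ⟨l, hl, hlZ⟩ := hc
      right
      exact mem_iUnion₂.mpr ⟨l, Finset.mem_range.mpr hl, hx.1, hlZ⟩
    · left
      refine ⟨hx.1, fun l hl => ?_⟩
      have hf : {i | G s l x ∈ T i}.Finite := by
        by_contra hinf
        exact hc ⟨l, hl, hG s l hl x hx.1, hinf⟩
      exact hi.trans (le_csSup hf.bddAbove (hx.2 l hl))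
  have hlim : Tendsto (fun i : ℕ =>
      μ {x | x ∈ P s ∧ ∀ l < m s, n ≤ sSup {i | G s l x ∈ T i}} + (2⁻¹ : ℝ≥0∞) ^ i) atTop
      (𝓝 (μ {x | x ∈ P s ∧ ∀ l < m s, n ≤ sSup {i | G s l x ∈ T i}} + 0)) := by
    refine Tendsto.const_add _ ?_
    exact ENNReal.tendsto_pow_atTop_nhds_zero_of_lt_one (by
      rw [ENNReal.inv_lt_one]; exact ENNReal.one_lt_two)
  rw [add_zero] at hlim
  refine ge_of_tendsto_of_frequently hlim ?_
  refine (hT.and_eventually (eventually_ge_atTop (max n s))).mono ?_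
  rintro i ⟨hi, hni⟩
  refine (hi s ((le_max_right _ _).trans hni)).trans ?_
  refine add_le_add ?_ le_rfl
  refine (measure_mono (hsub i ((le_max_left _ _).trans hni))).trans ?_
  refine (measure_union_le _ _).trans ?_
  rw [hnull, add_zero]

omit [IsFiniteMeasure μ] in
theorem case1 {K : Type*} (D : Set α) (P : ℕ → Set α) (m : ℕ → ℕ) (G : ℕ → ℕ → α → α)
    (hG : ∀ s, ∀ i < m s, ∀ x ∈ P s, G s i x ∈ D)
    (NS : ∀ s, ∀ i < m s, ∀ Z ⊆ D, μ Z = 0 → μ {x | x ∈ P s ∧ G s i x ∈ Z} = 0)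
    (ρ : α → K) (e : K → Can) (T : ℕ → ℕ → Set Can)
    (hT : ∀ i k, ∀ s ≤ i, μ (P s) ≤
      μ {x | x ∈ P s ∧ ∀ l < m s, e (ρ (G s l x)) ∈ T i k} + (2⁻¹ : ℝ≥0∞) ^ i)
    (g : ℕ → ℕ) (hg : ∀ ξ, ∀ᶠ i in atTop, e ξ ∉ T i (g i)) :
    ∃ L : α → ℕ, ∀ s n, μ {x | x ∈ P s ∧ ∀ l < m s, n ≤ L (G s l x)} = μ (P s) := by
  refine ex_of_sets μ D P m G hG NS (fun i => {y | e (ρ y) ∈ T i (g i)}) ?_ ?_
  · have h0 : {y | y ∈ D ∧ {i | y ∈ {y | e (ρ y) ∈ T i (g i)}}.Infinite} = ∅ := by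
      refine eq_empty_iff_forall_notMem.mpr fun y hy => ?_
      obtain ⟨N, hN⟩ := eventually_atTop.mp (hg (ρ y))
      refine hy.2 ((Set.finite_lt_nat N).subset fun i hi => ?_)
      by_contra hlt
      exact hN i (not_lt.mp hlt) hi
    rw [h0]
    exact measure_empty
  · exact (Eventually.of_forall fun i s hs => hT i (g i) s hs).frequently

end

end Pool.Agent.Lib.A54
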