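import Pool.Agent.Lib.A54.Defs

/-!
Level sets of the Cantor space.
-/

namespace Pool.Agent.Lib.A54

open MeasureTheory Set Filter
open scoped ENNReal Topology

theorem isLevel_iff {S : Set Can} :
    IsLevel S ↔ ∃ h : ℕ, ∀ z w : Can, (∀ i < h, z i = w i) → (z ∈ S ↔ w ∈ S) := by
  constructor
  · rintro ⟨h, hh⟩
    exact ⟨h, fun z w hzw => ⟨hh z w hzw, hh w z fun i hi => (hzw i hi).symm⟩⟩
  · rintro ⟨h, hh⟩
    exact ⟨h, fun z w hzw => (hh z w hzw).1⟩

theorem IsLevel.compl {S : Set Can} (hS : IsLevel S) : IsLevel Sᶜ := by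
  rw [isLevel_iff] at hS ⊢
  obtain ⟨n, hn⟩ := hS
  exact ⟨n, fun z w hzw => not_congr (hn z w hzw)⟩

theorem IsLevel.inter {S T : Set Can} (hS : IsLevel S) (hT : IsLevel T) : IsLevel (S ∩ T) := by
  obtain ⟨n, hn⟩ := hS
  obtain ⟨m, hm⟩ := hT
  refine ⟨max n m, fun z w hzw h => ?_⟩
  exact ⟨hn z w (fun i hi => hzw i (lt_max_of_lt_left hi)) h.1,
    hm z w (fun i hi => hzw i (lt_max_of_lt_right hi)) h.2⟩

theorem IsLevel.union {S T : Set Can} (hS : IsLevel S) (hT : IsLevel T) : IsLevel (S ∪ T) := by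
  obtain ⟨n, hn⟩ := hS
  obtain ⟨m, hm⟩ := hT
  refine ⟨max n m, fun z w hzw h => ?_⟩
  exact h.imp (hn z w fun i hi => hzw i (lt_max_of_lt_left hi))
    (hm z w fun i hi => hzw i (lt_max_of_lt_right hi))

theorem IsLevel.univ : IsLevel univ := ⟨0, fun _ _ _ h => h⟩

theorem IsLevel.empty : IsLevel ∅ := ⟨0, fun _ _ _ h => h⟩

theorem IsLevel.diff {S T : Set Can} (hS : IsLevel S) (hT : IsLevel T) : IsLevel (S \ T) := by
  rw [sdiff_eq]
  exact hS.inter hT.compl

/-- The restriction to the first `n` coordinates. -/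
def res (n : ℕ) (z : Can) : Fin n → Bool := fun i => z i

theorem measurable_res (n : ℕ) : Measurable (res n) :=
  measurable_pi_lambda _ fun i => measurable_pi_apply (i : ℕ)

/-- `S = {z | z restricted to the first h coordinates is in u}`. -/
theorem isLevel_of_fin (h : ℕ) (u : Set (Fin h → Bool)) :
    IsLevel {z : Can | (fun i : Fin h => z i) ∈ u} := by
  refine ⟨h, fun z w hzw hz => ?_⟩
  have : (fun i : Fin h => z i) = fun i : Fin h => w i := funext fun i => hzw i i.2
  rw [mem_ofPred_eq, ← this]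
  exact hz

theorem IsLevel.exists_preimage {S : Set Can} (h : IsLevel S) :
    ∃ n, ∃ u : Set (Fin n → Bool), S = res n ⁻¹' u := by
  obtain ⟨n, hn⟩ := h
  refine ⟨n, res n '' S, ?_⟩
  ext z
  constructor
  · intro hz
    exact ⟨z, hz, rfl⟩
  · rintro ⟨w, hw, hwz⟩
    refine hn w z (fun i hi => ?_) hw
    exact congrFun hwz ⟨i, hi⟩

theorem IsLevel.measurableSet {S : Set Can} (hS : IsLevel S) : MeasurableSet S := by
  obtain ⟨n, u, rfl⟩ := hS.exists_preimage
  exact measurable_res n MeasurableSet.of_discrete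

theorem countable_isLevel : {S : Set Can | IsLevel S}.Countable := by
  have h : {S : Set Can | IsLevel S} ⊆
      range (fun p : Σ n : ℕ, Set (Fin n → Bool) => res p.1 ⁻¹' p.2) := by
    intro S hS
    obtain ⟨n, u, rfl⟩ := IsLevel.exists_preimage hS
    exact ⟨⟨n, u⟩, rfl⟩
  exact (countable_range _).mono h

end Pool.Agent.Lib.A54
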