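import Pool.Agent.Lib.A54.Split1

/-!
Row D of the full answer of MP_a54a32_lc: splitting of finitely many sets by level sets.
-/

namespace Pool.Agent.Lib.A54

open MeasureTheory Set Filter
open scoped ENNReal Topology

theorem spl_avoid {α β : Type*} [MeasurableSpace α] (μ : Measure α) [IsFiniteMeasure μ]
    (R : Set α) (F : α → Set β) (hF : ∀ x, (F x).Finite)
    (T : ℕ → Set β) (hT : Pairwise (Function.onFun Disjoint T)) {ε : ℝ≥0∞} (hε : ε ≠ 0) :
    ∀ᶠ k in atTop, μ R ≤ μ {x | x ∈ R ∧ Disjoint (F x) (T k)} + ε := by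
  set A : ℕ → Set α := fun k => {x | x ∈ R ∧ Disjoint (F x) (T k)} with hA
  set E : ℕ → Set α := fun k => toMeasurable μ R \ toMeasurable μ (A k) with hE
  have hEm : ∀ k, MeasurableSet (E k) := fun k =>
    (measurableSet_toMeasurable _ _).diff (measurableSet_toMeasurable _ _)
  set U : ℕ → Set α := fun n => ⋃ k ∈ Ici n, E k with hU
  have hUm : ∀ n, MeasurableSet (U n) := fun n =>
    MeasurableSet.biUnion (to_countable _) fun k _ => hEm k
  have hUanti : Antitone U := by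
    intro m n hmn
    exact biUnion_subset_biUnion_left (Ici_subset_Ici.2 hmn)
  -- every point of `R` avoids the limsup
  have hlim : Disjoint R (⋂ n, U n) := by
    rw [Set.disjoint_left]
    intro x hx hx'
    have hfin : {k | ¬ Disjoint (F x) (T k)}.Finite := by
      by_contra hinf
      have hch : ∀ k : {k | ¬ Disjoint (F x) (T k)}, ∃ z, z ∈ F x ∧ z ∈ T k := by
        rintro ⟨k, hk⟩
        obtain ⟨z, hz⟩ := Set.not_disjoint_iff.1 hk
        exact ⟨z, hz⟩
      choose z hz1 hz2 using hch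
      have hinj : Function.Injective z := by
        rintro ⟨k, hk⟩ ⟨l, hl⟩ hkl
        by_contra hne
        have hne' : k ≠ l := fun h => hne (Subtype.ext h)
        have h1 := hz2 ⟨k, hk⟩
        have h2 := hz2 ⟨l, hl⟩
        rw [hkl] at h1
        exact Set.disjoint_left.1 (hT hne') h1 h2
      have hr : (range z).Finite := (hF x).subset (by
        rintro _ ⟨k, rfl⟩
        exact hz1 k)
      have : Finite {k | ¬ Disjoint (F x) (T k)} := by
        have hri : Infinite {k | ¬ Disjoint (F x) (T k)} := Set.infinite_coe_iff.2 hinf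
        exact absurd hr (Set.infinite_range_of_injective hinj)
      exact hinf (Set.toFinite _)
    obtain ⟨N, hN⟩ := hfin.bddAbove
    have h1 := mem_iInter.1 hx' (N + 1)
    simp only [hU, mem_iUnion, mem_Ici] at h1
    obtain ⟨k, hk, hxk⟩ := h1
    have h2 : Disjoint (F x) (T k) := by
      by_contra h
      have := hN h
      omega
    exact hxk.2 (subset_toMeasurable _ _ ⟨hx, h2⟩)
  have hnull : μ (⋂ n, U n) = 0 := by
    have hIm : MeasurableSet (⋂ n, U n) := MeasurableSet.iInter hUm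
    have hsub : (⋂ n, U n) ⊆ toMeasurable μ R := by
      intro x hx
      have h1 := mem_iInter.1 hx 0
      simp only [hU, mem_iUnion, mem_Ici] at h1
      obtain ⟨k, _, hxk⟩ := h1
      exact hxk.1
    have h1 : μ (toMeasurable μ R \ ⋂ n, U n) + μ (⋂ n, U n) = μ (toMeasurable μ R) := by
      rw [measure_sdiff hsub hIm.nullMeasurableSet (measure_ne_top _ _),
        tsub_add_cancel_of_le (measure_mono hsub)]
    have h2 : μ R ≤ μ (toMeasurable μ R \ ⋂ n, U n) :=
      measure_mono fun x hx => ⟨subset_toMeasurable _ _ hx, Set.disjoint_left.1 hlim hx⟩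
    rw [measure_toMeasurable] at h1
    have h3 : μ R + μ (⋂ n, U n) ≤ μ R := by
      calc μ R + μ (⋂ n, U n) ≤ μ (toMeasurable μ R \ ⋂ n, U n) + μ (⋂ n, U n) := by gcongr
        _ = μ R := h1
    by_contra h0
    exact absurd h3 (not_le.2 (ENNReal.lt_add_right (measure_ne_top _ _) h0))
  have ht : Tendsto (μ ∘ U) atTop (𝓝 (μ (⋂ n, U n))) :=
    tendsto_measure_iInter_atTop (fun n => (hUm n).nullMeasurableSet) hUanti
      ⟨0, measure_ne_top _ _⟩
  rw [hnull] at ht
  filter_upwards [ht.eventually (gt_mem_nhds (pos_iff_ne_zero.2 hε))] with k hk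
  have h1 : μ (E k) ≤ ε := (measure_mono (subset_biUnion_of_mem (mem_Ici.2 le_rfl))).trans hk.le
  calc μ R ≤ μ (toMeasurable μ (A k) ∪ E k) :=
        measure_mono fun x hx => by
          by_cases h : x ∈ toMeasurable μ (A k)
          · exact Or.inl h
          · exact Or.inr ⟨subset_toMeasurable _ _ hx, h⟩
    _ ≤ μ (toMeasurable μ (A k)) + μ (E k) := measure_union_le _ _
    _ ≤ μ (A k) + ε := by
      rw [measure_toMeasurable]
      gcongr

theorem spl_avoid_finset {α β ι : Type*} [MeasurableSpace α] (μ : Measure α) [IsFiniteMeasure μ]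
    (I : Finset ι) (R : ι → Set α) (F : ι → α → Set β) (hF : ∀ s x, (F s x).Finite)
    (T : ℕ → Set β) (hT : Pairwise (Function.onFun Disjoint T)) {ε : ℝ≥0∞} (hε : ε ≠ 0) :
    ∃ k, ∀ s ∈ I, μ (R s) ≤ μ {x | x ∈ R s ∧ Disjoint (F s x) (T k)} + ε :=
  ((Filter.eventually_all_finset I).2 fun s _ =>
    spl_avoid μ (R s) (F s) (hF s) T hT hε).exists


variable {α : Type*} [MeasurableSpace α] (μ : Measure α)

theorem NB.mono {P Q : Set α} {c : α → Can} (h : NB μ P c) (hQ : Q ⊆ P) : NB μ Q c :=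
  fun β hβ => by
    refine measure_mono_null ?_ (h β hβ)
    exact fun x hx => ⟨hQ hx.1, hx.2⟩

omit [MeasurableSpace α] in
theorem Suc_subset {ι : Type*} (LL : List (ι × (α → Can))) (s : ι) (S : Set Can) (X : Set α) :
    Suc LL s S X ⊆ X := fun _ hx => hx.1

omit [MeasurableSpace α] in
theorem Suc_Suc_subset {ι : Type*} (LL : List (ι × (α → Can))) (s : ι) (S C : Set Can)
    (X : Set α) : Suc LL s S (Suc LL s C X) ⊆ Suc LL s (C ∩ S) X :=
  fun _ hx => ⟨hx.1.1, fun p hp h => ⟨hx.1.2 p hp h, hx.2 p hp h⟩⟩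

theorem hInf_of_hSpl {ι : Type*} {I : Finset ι} {LL : List (ι × (α → Can))}
    (h : HSpl μ I LL) : HInf μ I LL := by
  intro P hNB ε hε
  obtain ⟨e, he0, hes⟩ := ENNReal.exists_pos_sum_of_countable' hε ℕ
  have hstep : ∀ (k : ℕ) (C : Set Can), ∃ S, IsLevel S ∧
      ∀ s ∈ I, μ (Suc LL s C (P s)) ≤ μ (Suc LL s S (Suc LL s C (P s))) + e k ∧
        μ (Suc LL s C (P s)) ≤ μ (Suc LL s Sᶜ (Suc LL s C (P s))) + e k := fun k C =>
    h (fun s => Suc LL s C (P s)) (fun p hp => (hNB p hp).mono μ (Suc_subset _ _ _ _)) (e k)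
      (he0 k).ne'
  choose S hSl hS using hstep
  let C : ℕ → Set Can := fun k => Nat.rec univ (fun k C => C ∩ (S k C)ᶜ) k
  have hC0 : C 0 = univ := rfl
  have hCs : ∀ k, C (k + 1) = C k ∩ (S k (C k))ᶜ := fun k => rfl
  have hCl : ∀ k, IsLevel (C k) := by
    intro k
    induction k with
    | zero => exact IsLevel.univ
    | succ k ih =>
      rw [hCs]
      exact IsLevel.inter ih (IsLevel.compl (hSl k (C k)))
  have hCanti : Antitone C := antitone_nat_of_succ_le fun k => by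
    rw [hCs]
    exact inter_subset_left
  have hloss : ∀ k, ∀ s ∈ I, μ (P s) ≤ μ (Suc LL s (C k) (P s)) + ∑ i ∈ Finset.range k, e i := by
    intro k s hs
    induction k with
    | zero =>
      rw [Finset.range_zero, Finset.sum_empty, add_zero]
      exact measure_mono fun x hx => ⟨hx, fun _ _ _ => mem_univ _⟩
    | succ k ih =>
      rw [hCs, Finset.sum_range_succ]
      calc μ (P s) ≤ μ (Suc LL s (C k) (P s)) + ∑ i ∈ Finset.range k, e i := ih
        _ ≤ (μ (Suc LL s (S k (C k))ᶜ (Suc LL s (C k) (P s))) + e k) +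
            ∑ i ∈ Finset.range k, e i := by gcongr; exact (hS k (C k) s hs).2
        _ ≤ (μ (Suc LL s (C k ∩ (S k (C k))ᶜ) (P s)) + e k) + ∑ i ∈ Finset.range k, e i := by
            gcongr
            exact Suc_Suc_subset _ _ _ _ _
        _ = μ (Suc LL s (C k ∩ (S k (C k))ᶜ) (P s)) + (∑ i ∈ Finset.range k, e i + e k) := by
            rw [add_assoc, add_comm (e k)]
  refine ⟨fun k => C k ∩ S k (C k), fun k => IsLevel.inter (hCl k) (hSl k (C k)), ?_, ?_⟩
  · have key : ∀ i j, i < j → Disjoint (C i ∩ S i (C i)) (C j ∩ S j (C j)) := by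
      intro i j hij
      rw [Set.disjoint_left]
      intro z hz hz'
      have h1 : z ∈ C (i + 1) := hCanti (Nat.succ_le_of_lt hij) hz'.1
      rw [hCs] at h1
      exact h1.2 hz.2
    intro i j hij
    rcases lt_or_gt_of_ne hij with h1 | h1
    · exact key i j h1
    · exact (key j i h1).symm
  · intro k s hs
    calc μ (P s) ≤ μ (Suc LL s (C k) (P s)) + ∑ i ∈ Finset.range k, e i := hloss k s hs
      _ ≤ (μ (Suc LL s (S k (C k)) (Suc LL s (C k) (P s))) + e k) +
          ∑ i ∈ Finset.range k, e i := by gcongr; exact (hS k (C k) s hs).1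
      _ ≤ (μ (Suc LL s (C k ∩ S k (C k)) (P s)) + e k) + ∑ i ∈ Finset.range k, e i := by
          gcongr
          exact Suc_Suc_subset _ _ _ _ _
      _ = μ (Suc LL s (C k ∩ S k (C k)) (P s)) + ∑ i ∈ Finset.range (k + 1), e i := by
          rw [Finset.sum_range_succ, add_assoc, add_comm (e k)]
      _ ≤ μ (Suc LL s (C k ∩ S k (C k)) (P s)) + ε := by
          gcongr
          exact (ENNReal.sum_le_tsum _).trans hes.le

variable [IsFiniteMeasure μ]

theorem hSpl_single {ι : Type*} (I : Finset ι) (s₀ : ι) (c₀ : α → Can) :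
    HSpl μ I [(s₀, c₀)] := by
  intro P hNB ε hε
  obtain ⟨S, hSl, h1, h2⟩ := split1 μ (hNB (s₀, c₀) (List.mem_singleton.2 rfl)) hε
  refine ⟨S, hSl, fun s _ => ?_⟩
  by_cases hs : s₀ = s
  · subst hs
    constructor
    · refine h1.trans ?_
      gcongr
      rintro x ⟨hx, hx'⟩
      refine ⟨hx, fun p hp _ => ?_⟩
      rw [List.mem_singleton.1 hp]
      exact hx'
    · refine h2.trans ?_
      gcongr
      rintro x ⟨hx, hx'⟩
      refine ⟨hx, fun p hp _ => ?_⟩
      rw [List.mem_singleton.1 hp]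
      exact hx'
  · have h3 : ∀ S' : Set Can, P s ⊆ Suc [(s₀, c₀)] s S' (P s) := by
      intro S' x hx
      refine ⟨hx, fun p hp h => ?_⟩
      rw [List.mem_singleton.1 hp] at h
      exact absurd h hs
    exact ⟨(measure_mono (h3 S)).trans le_self_add, (measure_mono (h3 Sᶜ)).trans le_self_add⟩

theorem hSpl {ι : Type*} (I : Finset ι) (LL : List (ι × (α → Can))) : HSpl μ I LL := by
  induction LL with
  | nil =>
    intro P _ ε _
    have h3 : ∀ (s : ι) (S' : Set Can), P s ⊆ Suc ([] : List (ι × (α → Can))) s S' (P s) :=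
      fun s S' x hx => ⟨hx, fun p hp => absurd hp List.not_mem_nil⟩
    exact ⟨univ, IsLevel.univ, fun s _ =>
      ⟨(measure_mono (h3 s _)).trans le_self_add, (measure_mono (h3 s _)).trans le_self_add⟩⟩
  | cons q LL ih =>
    obtain ⟨s₀, c₀⟩ := q
    intro P hNB ε hε
    have hInf := hInf_of_hSpl μ ih
    have hInf₀ := hInf_of_hSpl μ (hSpl_single μ I s₀ c₀)
    have hNB' : ∀ p ∈ LL, NB μ (P p.1) p.2 := fun p hp => hNB p (List.mem_cons_of_mem _ hp)
    have hNB₀ : NB μ (P s₀) c₀ := hNB (s₀, c₀) List.mem_cons_self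
    set e := ε / 4 with he
    have he0 : e ≠ 0 := by
      rw [he]
      exact (ENNReal.div_pos hε (by norm_num)).ne'
    have he4 : e + e + e + e = ε := by
      have : e * 4 = ε := by
        rw [he]
        exact ENNReal.div_mul_cancel (by norm_num) (by norm_num)
      rw [← this]
      ring
    -- the first pieces
    obtain ⟨T, hTl, hTd, hT⟩ := hInf P hNB' e he0
    obtain ⟨V, hVl, hVd, hV⟩ := hInf₀ (fun s => Suc LL s (T 0) (P s)) (by
      intro p hp
      rw [List.mem_singleton.1 hp]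
      exact hNB₀.mono μ (Suc_subset _ _ _ _)) e he0
    let R : ι → Set α := fun s => Suc [(s₀, c₀)] s (V 0) (Suc LL s (T 0) (P s))
    let F : ι → α → Set Can := fun s x => {z | ∃ p ∈ (s₀, c₀) :: LL, p.1 = s ∧ p.2 x = z}
    have hF : ∀ s x, (F s x).Finite := by
      intro s x
      refine Set.Finite.subset ((List.finite_toSet ((s₀, c₀) :: LL)).image fun p => p.2 x) ?_
      rintro z ⟨p, hp, _, rfl⟩
      exact ⟨p, hp, rfl⟩
    obtain ⟨i, hi⟩ := spl_avoid_finset μ I R F hF T hTd he0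
    obtain ⟨V', hVl', hVd', hV'⟩ := hInf₀ (fun s => Suc LL s (T i) (P s)) (by
      intro p hp
      rw [List.mem_singleton.1 hp]
      exact hNB₀.mono μ (Suc_subset _ _ _ _)) e he0
    obtain ⟨j, hj⟩ := spl_avoid_finset μ I (fun s => {x | x ∈ R s ∧ Disjoint (F s x) (T i)}) F hF V'
      hVd' he0
    refine ⟨(T 0 ∪ V 0) ∩ (T i ∪ V' j)ᶜ, IsLevel.inter (IsLevel.union (hTl 0) (hVl 0))
      (IsLevel.compl (IsLevel.union (hTl i) (hVl' j))), fun s hs => ⟨?_, ?_⟩⟩
    · have hsub : {x | x ∈ {x | x ∈ R s ∧ Disjoint (F s x) (T i)} ∧ Disjoint (F s x) (V' j)} ⊆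
          Suc ((s₀, c₀) :: LL) s ((T 0 ∪ V 0) ∩ (T i ∪ V' j)ᶜ) (P s) := by
        rintro x ⟨⟨hxR, hx1⟩, hx2⟩
        refine ⟨hxR.1.1, fun p hp hps => ⟨?_, ?_⟩⟩
        · rcases List.mem_cons.1 hp with h | h
          · right
            subst h
            exact hxR.2 _ (List.mem_singleton.2 rfl) hps
          · left
            exact hxR.1.2 p h hps
        · have hpF : p.2 x ∈ F s x := ⟨p, hp, hps, rfl⟩
          rintro (h | h)
          · exact Set.disjoint_left.1 hx1 hpF h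
          · exact Set.disjoint_left.1 hx2 hpF h
      calc μ (P s) ≤ μ (Suc LL s (T 0) (P s)) + e := hT 0 s hs
        _ ≤ (μ (R s) + e) + e := by gcongr; exact hV 0 s hs
        _ ≤ ((μ {x | x ∈ R s ∧ Disjoint (F s x) (T i)} + e) + e) + e := by
            gcongr; exact hi s hs
        _ ≤ (((μ {x | x ∈ {x | x ∈ R s ∧ Disjoint (F s x) (T i)} ∧ Disjoint (F s x) (V' j)} + e)
            + e) + e) + e := by gcongr; exact hj s hs
        _ ≤ (((μ (Suc ((s₀, c₀) :: LL) s ((T 0 ∪ V 0) ∩ (T i ∪ V' j)ᶜ) (P s)) + e)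
            + e) + e) + e := by gcongr
        _ = μ (Suc ((s₀, c₀) :: LL) s ((T 0 ∪ V 0) ∩ (T i ∪ V' j)ᶜ) (P s)) + ε := by
            rw [← he4]
            ring
    · have hsub : Suc [(s₀, c₀)] s (V' j) (Suc LL s (T i) (P s)) ⊆
          Suc ((s₀, c₀) :: LL) s ((T 0 ∪ V 0) ∩ (T i ∪ V' j)ᶜ)ᶜ (P s) := by
        rintro x ⟨⟨hx, hx1⟩, hx2⟩
        refine ⟨hx, fun p hp hps h => h.2 ?_⟩
        rcases List.mem_cons.1 hp with h' | h'
        · right
          subst h'
          exact hx2 _ (List.mem_singleton.2 rfl) hps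
        · left
          exact hx1 p h' hps
      calc μ (P s) ≤ μ (Suc LL s (T i) (P s)) + e := hT i s hs
        _ ≤ (μ (Suc [(s₀, c₀)] s (V' j) (Suc LL s (T i) (P s))) + e) + e := by
            gcongr; exact hV' j s hs
        _ ≤ (μ (Suc ((s₀, c₀) :: LL) s ((T 0 ∪ V 0) ∩ (T i ∪ V' j)ᶜ)ᶜ (P s)) + e) + e := by
            gcongr
        _ ≤ (((μ (Suc ((s₀, c₀) :: LL) s ((T 0 ∪ V 0) ∩ (T i ∪ V' j)ᶜ)ᶜ (P s)) + e) + e) + e)
            + e := le_self_add.trans le_self_add
        _ = μ (Suc ((s₀, c₀) :: LL) s ((T 0 ∪ V 0) ∩ (T i ∪ V' j)ᶜ)ᶜ (P s)) + ε := by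
            rw [← he4]
            ring

/-- blocks: a set with a finite list of nowhere measurable maps. -/
theorem inf_blocks (BL : List (Set α × List (α → Can)))
    (hNB : ∀ b ∈ BL, ∀ c ∈ b.2, NB μ b.1 c) {ε : ℝ≥0∞} (hε : ε ≠ 0) :
    ∃ T : ℕ → Set Can, (∀ k, IsLevel (T k)) ∧ Pairwise (Function.onFun Disjoint T) ∧
      ∀ k, ∀ b ∈ BL, μ b.1 ≤ μ {x | x ∈ b.1 ∧ ∀ c ∈ b.2, c x ∈ T k} + ε := by
  classical
  have hmem : ∀ p : (Set α × List (α → Can)) × (α → Can),
      p ∈ BL.flatMap (fun b => b.2.map fun c => (b, c)) ↔ p.1 ∈ BL ∧ p.2 ∈ p.1.2 := by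
    intro p
    rw [List.mem_flatMap]
    constructor
    · rintro ⟨b, hb, hp⟩
      obtain ⟨c, hc, rfl⟩ := List.mem_map.1 hp
      exact ⟨hb, hc⟩
    · rintro ⟨h1, h2⟩
      exact ⟨p.1, h1, List.mem_map.2 ⟨p.2, h2, rfl⟩⟩
  obtain ⟨T, hTl, hTd, hT⟩ := hInf_of_hSpl μ (hSpl μ BL.toFinset
    (BL.flatMap fun b => b.2.map fun c => (b, c))) (fun b => b.1)
    (fun p hp => hNB p.1 ((hmem p).1 hp).1 p.2 ((hmem p).1 hp).2) ε hε
  refine ⟨T, hTl, hTd, fun k b hb => (hT k b (List.mem_toFinset.2 hb)).trans ?_⟩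
  gcongr
  rintro x ⟨hx, hx'⟩
  exact ⟨hx, fun c hc => hx' (b, c) ((hmem (b, c)).2 ⟨hb, hc⟩) rfl⟩

end Pool.Agent.Lib.A54
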