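import Pool.Agent.Lib.A54.Defs
import Pool.Agent.Lib.A54.Spl

/-!
Pairs of maps (5.3).
-/

namespace Pool.Agent.Lib.A54

open MeasureTheory Set Filter
open scoped ENNReal Topology

variable {α : Type*} [MeasurableSpace α] (μ : Measure α)

theorem NB.pairs_mono {P Q : Set α} {c : α → Can} (h : NB μ P c) (hQ : Q ⊆ P) : NB μ Q c := by
  intro β hβ
  refine measure_mono_null ?_ (h β hβ)
  intro x hx
  exact ⟨hQ hx.1, hx.2⟩

theorem PNB.pairs_mono {P Q : Set α} {a b : α → Can} (h : PNB μ P a b) (hQ : Q ⊆ P) :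
    PNB μ Q a b := by
  intro β γ hβ hγ
  refine measure_mono_null ?_ (h β γ hβ hγ)
  intro x hx
  exact ⟨hQ hx.1, hx.2⟩

/-- A family of sets closed under countable unions has a member of largest outer measure. -/
theorem pairs_exists_max (p : Set α → Prop) (h0 : ∃ S, p S)
    (hU : ∀ S : ℕ → Set α, (∀ n, p (S n)) → p (⋃ n, S n)) :
    ∃ S, p S ∧ ∀ T, p T → μ T ≤ μ S := by
  classical
  let m : ℝ≥0∞ := ⨆ T : {T : Set α // p T}, μ T.1
  have : Nonempty {T : Set α // p T} := ⟨⟨h0.choose, h0.choose_spec⟩⟩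
  obtain ⟨u, -, hut, huv⟩ := exists_seq_tendsto_sSup (S := range fun T : {T : Set α // p T} => μ T.1)
    (range_nonempty _) (OrderTop.bddAbove _)
  choose v hv using huv
  refine ⟨⋃ n, (v n).1, hU _ fun n => (v n).2, fun T hT => ?_⟩
  have h1 : μ T ≤ sSup (range fun T : {T : Set α // p T} => μ T.1) := le_sSup ⟨⟨T, hT⟩, rfl⟩
  refine h1.trans (le_of_tendsto' hut fun n => ?_)
  rw [← hv n]
  exact measure_mono (subset_iUnion (fun n => (v n).1) n)

theorem dec_pair [IsFiniteMeasure μ] {P : Set α} {a b : α → Can} (h : PNB μ P a b) :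
    ∃ P0 ⊆ P, ∃ P1 ⊆ P, NB μ P0 a ∧ NB μ P1 b ∧ μ (P0 ∪ P1) = μ P := by
  obtain ⟨Q, ⟨hQP, β, hβ, hQ⟩, hmax⟩ := pairs_exists_max μ
    (fun S => S ⊆ P ∧ ∃ β : ℕ → α → Can, (∀ k, Measurable (β k)) ∧ ∀ x ∈ S, ∃ k, a x = β k x)
    ⟨∅, empty_subset _, fun _ _ _ => false, fun _ => measurable_const, fun x hx => hx.elim⟩ (by
      intro S hS
      refine ⟨iUnion_subset fun n => (hS n).1, ?_⟩
      choose β hβ hβS using fun n => (hS n).2
      refine ⟨fun k => β k.unpair.1 k.unpair.2, fun k => hβ _ _, fun x hx => ?_⟩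
      obtain ⟨n, hn⟩ := mem_iUnion.1 hx
      obtain ⟨k, hk⟩ := hβS n x hn
      refine ⟨Nat.pair n k, ?_⟩
      simpa using hk)
  have hE : MeasurableSet (toMeasurable μ Q) := measurableSet_toMeasurable μ Q
  have hQE : Q ⊆ toMeasurable μ Q := subset_toMeasurable μ Q
  refine ⟨P \ toMeasurable μ Q, sdiff_subset, Q, hQP, ?_, ?_, ?_⟩
  · intro γ hγ
    set N : Set α := {x | x ∈ P \ toMeasurable μ Q ∧ a x = γ x} with hN
    have h1 : μ (N ∪ Q) ≤ μ Q := by
      refine hmax _ ⟨union_subset (fun x hx => hx.1.1) hQP,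
        fun k => Nat.casesOn k γ fun k => β k, ?_, ?_⟩
      · intro k
        cases k with
        | zero => exact hγ
        | succ k => exact hβ k
      · rintro x (hx | hx)
        · exact ⟨0, hx.2⟩
        · obtain ⟨k, hk⟩ := hQ x hx
          exact ⟨k + 1, hk⟩
    have h2 : μ ((N ∪ Q) ∩ toMeasurable μ Q) + μ ((N ∪ Q) \ toMeasurable μ Q) = μ (N ∪ Q) :=
      measure_inter_add_sdiff _ hE
    have h3 : μ Q ≤ μ ((N ∪ Q) ∩ toMeasurable μ Q) :=
      measure_mono fun x hx => ⟨Or.inr hx, hQE hx⟩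
    have h4 : μ N ≤ μ ((N ∪ Q) \ toMeasurable μ Q) :=
      measure_mono fun x hx => ⟨Or.inl hx, hx.1.2⟩
    have h5 : μ Q + μ N ≤ μ Q + 0 := by
      rw [add_zero]
      exact (add_le_add h3 h4).trans (h2.le.trans h1)
    exact le_zero_iff.1 ((ENNReal.add_le_add_iff_left (measure_ne_top μ Q)).1 h5)
  · intro γ hγ
    refine measure_mono_null (t := ⋃ k, {x | x ∈ P ∧ a x = β k x ∧ b x = γ x}) ?_
      (measure_iUnion_null fun k => h (β k) γ (hβ k) hγ)
    intro x hx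
    obtain ⟨k, hk⟩ := hQ x hx.1
    exact mem_iUnion.2 ⟨k, hQP hx.1, hk, hx.2⟩
  · refine le_antisymm (measure_mono (union_subset sdiff_subset hQP)) ?_
    have h2 : μ (P ∩ toMeasurable μ Q) + μ (P \ toMeasurable μ Q) = μ P :=
      measure_inter_add_sdiff _ hE
    have h3 : μ ((P \ toMeasurable μ Q ∪ Q) ∩ toMeasurable μ Q) +
        μ ((P \ toMeasurable μ Q ∪ Q) \ toMeasurable μ Q) = μ (P \ toMeasurable μ Q ∪ Q) :=
      measure_inter_add_sdiff _ hE
    rw [← h2, ← h3]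
    refine add_le_add ?_ ?_
    swap
    · refine measure_mono ?_
      intro x hx
      exact ⟨Or.inl hx, hx.2⟩
    calc μ (P ∩ toMeasurable μ Q) ≤ μ (toMeasurable μ Q) := measure_mono inter_subset_right
      _ = μ Q := measure_toMeasurable Q
      _ ≤ _ := measure_mono (subset_inter (fun x hx => Or.inr hx) hQE)

theorem pairs_union_full {A A' B B' : Set α} [IsFiniteMeasure μ] (hA : A ⊆ A') (hB : B ⊆ B')
    (h1 : μ A = μ A') (h2 : μ B = μ B') : μ (A ∪ B) = μ (A' ∪ B') := by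
  refine le_antisymm (measure_mono (union_subset_union hA hB)) ?_
  exact (measure_union_congr_of_subset hA h1.ge hB h2.ge).ge

theorem dec_list [IsFiniteMeasure μ] {P : Set α} (PL : List ((α → Can) × (α → Can)))
    (h : ∀ p ∈ PL, PNB μ P p.1 p.2) :
    ∃ BL : List (Set α × List (α → Can)),
      (∀ b ∈ BL, b.1 ⊆ P ∧ (∀ c ∈ b.2, NB μ b.1 c) ∧
        ∀ (S : Set Can) (x : α), (∀ c ∈ b.2, c x ∈ S) → ∀ p ∈ PL, p.1 x ∈ S ∨ p.2 x ∈ S) ∧
      μ (⋃ b ∈ BL, b.1) = μ P := by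
  induction PL generalizing P with
  | nil =>
    refine ⟨[(P, [])], ?_, ?_⟩
    · intro b hb
      rw [List.mem_singleton] at hb
      subst hb
      exact ⟨Subset.rfl, fun c hc => absurd hc (List.not_mem_nil), fun S x _ p hp =>
        absurd hp (List.not_mem_nil)⟩
    · simp
  | cons p PL ih =>
    obtain ⟨P0, hP0, P1, hP1, hn0, hn1, hfull⟩ := dec_pair μ (h p List.mem_cons_self)
    obtain ⟨B0, hB0, hm0⟩ := ih (P := P0) fun q hq =>
      PNB.pairs_mono μ (h q (List.mem_cons_of_mem _ hq)) hP0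
    obtain ⟨B1, hB1, hm1⟩ := ih (P := P1) fun q hq =>
      PNB.pairs_mono μ (h q (List.mem_cons_of_mem _ hq)) hP1
    refine ⟨B0.map (fun b => (b.1, p.1 :: b.2)) ++ B1.map (fun b => (b.1, p.2 :: b.2)), ?_, ?_⟩
    · intro b hb
      rcases List.mem_append.1 hb with hb | hb
      · obtain ⟨b', hb', rfl⟩ := List.mem_map.1 hb
        obtain ⟨h1, h2, h3⟩ := hB0 b' hb'
        refine ⟨h1.trans hP0, ?_, ?_⟩
        · intro c hc
          rcases List.mem_cons.1 hc with rfl | hc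
          · exact NB.pairs_mono μ hn0 h1
          · exact h2 c hc
        · intro S x hx q hq
          rcases List.mem_cons.1 hq with rfl | hq
          · exact Or.inl (hx _ List.mem_cons_self)
          · exact h3 S x (fun c hc => hx c (List.mem_cons_of_mem _ hc)) q hq
      · obtain ⟨b', hb', rfl⟩ := List.mem_map.1 hb
        obtain ⟨h1, h2, h3⟩ := hB1 b' hb'
        refine ⟨h1.trans hP1, ?_, ?_⟩
        · intro c hc
          rcases List.mem_cons.1 hc with rfl | hc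
          · exact NB.pairs_mono μ hn1 h1
          · exact h2 c hc
        · intro S x hx q hq
          rcases List.mem_cons.1 hq with rfl | hq
          · exact Or.inr (hx _ List.mem_cons_self)
          · exact h3 S x (fun c hc => hx c (List.mem_cons_of_mem _ hc)) q hq
    · have hset : (⋃ b ∈ B0.map (fun b => (b.1, p.1 :: b.2)) ++
          B1.map (fun b => (b.1, p.2 :: b.2)), b.1) = (⋃ b ∈ B0, b.1) ∪ ⋃ b ∈ B1, b.1 := by
        ext x
        simp only [List.mem_append, List.mem_map, mem_iUnion, exists_prop, mem_union]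
        constructor
        · rintro ⟨b, ⟨c, hc, rfl⟩ | ⟨c, hc, rfl⟩, hx⟩
          · exact Or.inl ⟨c, hc, hx⟩
          · exact Or.inr ⟨c, hc, hx⟩
        · rintro (⟨c, hc, hx⟩ | ⟨c, hc, hx⟩)
          · exact ⟨_, Or.inl ⟨c, hc, rfl⟩, hx⟩
          · exact ⟨_, Or.inr ⟨c, hc, rfl⟩, hx⟩
      rw [hset, ← hfull]
      refine pairs_union_full μ ?_ ?_ hm0 hm1
      · exact iUnion₂_subset fun b hb => (hB0 b hb).1
      · exact iUnion₂_subset fun b hb => (hB1 b hb).1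

/-- Finitely many small losses. -/
theorem pairs_biUnion_le [IsFiniteMeasure μ] {γ : Type*} (L : List γ) (S T : γ → Set α)
    (hST : ∀ b ∈ L, S b ⊆ T b) {δ : ℝ≥0∞} (h : ∀ b ∈ L, μ (T b) ≤ μ (S b) + δ) :
    μ (⋃ b ∈ L, T b) ≤ μ (⋃ b ∈ L, S b) + L.length * δ := by
  set U : Set α := ⋃ b ∈ L, S b with hU
  have hE : MeasurableSet (toMeasurable μ U) := measurableSet_toMeasurable μ U
  have h1 : ∀ b ∈ L, μ (T b \ toMeasurable μ U) ≤ δ := by
    intro b hb
    have h2 : μ (T b ∩ toMeasurable μ U) + μ (T b \ toMeasurable μ U) = μ (T b) :=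
      measure_inter_add_sdiff _ hE
    have h3 : μ (S b) ≤ μ (T b ∩ toMeasurable μ U) := measure_mono fun x hx =>
      ⟨hST b hb hx, subset_toMeasurable μ U (mem_iUnion₂.2 ⟨b, hb, hx⟩)⟩
    have h4 : μ (S b) + μ (T b \ toMeasurable μ U) ≤ μ (S b) + δ :=
      (add_le_add_left h3 _).trans (h2.le.trans (h b hb))
    exact (ENNReal.add_le_add_iff_left (measure_ne_top μ _)).1 h4
  have h2 : ∀ L' : List γ, (∀ b ∈ L', μ (T b \ toMeasurable μ U) ≤ δ) →
      μ (⋃ b ∈ L', T b \ toMeasurable μ U) ≤ L'.length * δ := by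
    intro L' hL'
    induction L' with
    | nil => simp
    | cons c L' ih =>
      have : (⋃ b ∈ c :: L', T b \ toMeasurable μ U) =
          (T c \ toMeasurable μ U) ∪ ⋃ b ∈ L', T b \ toMeasurable μ U := by
        ext x
        simp only [List.mem_cons, mem_iUnion, exists_prop, mem_union]
        constructor
        · rintro ⟨b, rfl | hb, hx⟩
          · exact Or.inl hx
          · exact Or.inr ⟨b, hb, hx⟩
        · rintro (hx | ⟨b, hb, hx⟩)
          · exact ⟨c, Or.inl rfl, hx⟩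
          · exact ⟨b, Or.inr hb, hx⟩
      rw [this]
      refine (measure_union_le _ _).trans ?_
      have h5 := hL' c List.mem_cons_self
      have h6 := ih fun b hb => hL' b (List.mem_cons_of_mem _ hb)
      rw [List.length_cons, Nat.cast_add, Nat.cast_one, add_mul, one_mul, add_comm]
      exact add_le_add h6 h5
  calc μ (⋃ b ∈ L, T b) ≤ μ (toMeasurable μ U ∪ ⋃ b ∈ L, T b \ toMeasurable μ U) := by
        refine measure_mono fun x hx => ?_
        obtain ⟨b, hb, hx⟩ := mem_iUnion₂.1 hx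
        by_cases hxE : x ∈ toMeasurable μ U
        · exact Or.inl hxE
        · exact Or.inr (mem_iUnion₂.2 ⟨b, hb, hx, hxE⟩)
    _ ≤ μ (toMeasurable μ U) + μ (⋃ b ∈ L, T b \ toMeasurable μ U) := measure_union_le _ _
    _ ≤ μ U + L.length * δ := by
        rw [measure_toMeasurable]
        exact add_le_add_right (h2 L h1) _

/-- The conclusion of row D for one list of blocks. -/
def InfBlocks : Prop :=
  ∀ BL : List (Set α × List (α → Can)), (∀ b ∈ BL, ∀ c ∈ b.2, NB μ b.1 c) → ∀ ε : ℝ≥0∞, ε ≠ 0 →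
    ∃ T : ℕ → Set Can, (∀ k, IsLevel (T k)) ∧ Pairwise (Function.onFun Disjoint T) ∧
      ∀ k, ∀ b ∈ BL, μ b.1 ≤ μ {x | x ∈ b.1 ∧ ∀ c ∈ b.2, c x ∈ T k} + ε

theorem inf_pairs_of [IsFiniteMeasure μ] (hD : InfBlocks μ) {ι : Type*} (I : Finset ι)
    (P : ι → Set α) (PL : ι → List ((α → Can) × (α → Can)))
    (h : ∀ s ∈ I, ∀ p ∈ PL s, PNB μ (P s) p.1 p.2) {ε : ℝ≥0∞} (hε : ε ≠ 0) :
    ∃ T : ℕ → Set Can, (∀ k, IsLevel (T k)) ∧ Pairwise (Function.onFun Disjoint T) ∧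
      ∀ k, ∀ s ∈ I, μ (P s) ≤
        μ {x | x ∈ P s ∧ ∀ p ∈ PL s, p.1 x ∈ T k ∨ p.2 x ∈ T k} + ε := by
  classical
  have hex : ∀ s, ∃ BL : List (Set α × List (α → Can)), s ∈ I →
      (∀ b ∈ BL, b.1 ⊆ P s ∧ (∀ c ∈ b.2, NB μ b.1 c) ∧
        ∀ (S : Set Can) (x : α), (∀ c ∈ b.2, c x ∈ S) → ∀ p ∈ PL s, p.1 x ∈ S ∨ p.2 x ∈ S) ∧
      μ (⋃ b ∈ BL, b.1) = μ (P s) := by
    intro s
    by_cases hs : s ∈ I
    · obtain ⟨BL, hBL⟩ := dec_list μ (PL s) (h s hs)
      exact ⟨BL, fun _ => hBL⟩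
    · exact ⟨[], fun h => absurd h hs⟩
  choose BL hBL using hex
  -- the number of blocks
  let N : ℕ := (I.sup fun s => (BL s).length) + 1
  have hδ : ε / N ≠ 0 := (ENNReal.div_pos hε (ENNReal.natCast_ne_top N)).ne'
  obtain ⟨T, hT1, hT2, hT3⟩ := hD (I.toList.flatMap BL) (by
    intro b hb c hc
    obtain ⟨s, hs, hb⟩ := List.mem_flatMap.1 hb
    exact ((hBL s (Finset.mem_toList.1 hs)).1 b hb).2.1 c hc) (ε / N) hδ
  refine ⟨T, hT1, hT2, fun k s hs => ?_⟩
  have h1 := pairs_biUnion_le μ (BL s) (fun b => {x | x ∈ b.1 ∧ ∀ c ∈ b.2, c x ∈ T k})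
    (fun b => b.1) (fun b _ x hx => hx.1) (δ := ε / N)
    (fun b hb => hT3 k b (List.mem_flatMap.2 ⟨s, Finset.mem_toList.2 hs, hb⟩))
  rw [(hBL s hs).2] at h1
  refine h1.trans (add_le_add (measure_mono ?_) ?_)
  · refine iUnion₂_subset fun b hb x hx => ⟨((hBL s hs).1 b hb).1 hx.1, ?_⟩
    exact ((hBL s hs).1 b hb).2.2 (T k) x hx.2
  · have h2 : (BL s).length ≤ N :=
      (Finset.le_sup (f := fun s => (BL s).length) hs).trans (Nat.le_succ _)
    calc ((BL s).length : ℝ≥0∞) * (ε / N) ≤ (N : ℝ≥0∞) * (ε / N) := by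
          gcongr
      _ ≤ ε := ENNReal.mul_div_le

theorem inf_pairs [IsFiniteMeasure μ] {ι : Type*} (I : Finset ι) (P : ι → Set α)
    (PL : ι → List ((α → Can) × (α → Can)))
    (h : ∀ s ∈ I, ∀ p ∈ PL s, PNB μ (P s) p.1 p.2) {ε : ℝ≥0∞} (hε : ε ≠ 0) :
    ∃ T : ℕ → Set Can, (∀ k, IsLevel (T k)) ∧ Pairwise (Function.onFun Disjoint T) ∧
      ∀ k, ∀ s ∈ I, μ (P s) ≤
        μ {x | x ∈ P s ∧ ∀ p ∈ PL s, p.1 x ∈ T k ∨ p.2 x ∈ T k} + ε :=
  inf_pairs_of μ (fun BL hBL _ hε => inf_blocks μ BL hBL hε) I P PL h hε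

end Pool.Agent.Lib.A54
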