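import Pool.Agent.Lib.A54.Case2a
import Pool.Agent.Lib.A54.Level
import Pool.Agent.Lib.A54.Case1
import Pool.Agent.Lib.A54.Pairs

/-!
Case 2 of the full answer of MP_a54a32_lc.
-/

namespace Pool.Agent.Lib.A54

open MeasureTheory Set Filter
open scoped ENNReal Topology

theorem case2_of {α : Type*} [MeasurableSpace α] [AddGroup α] [MeasurableAdd₂ α] [MeasurableNeg α]
    (φ : α ≃ᵐ Can) (μ : Measure α) [IsFiniteMeasure μ] (hIB : InfBlocks μ)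
    (htr : ∀ (a : α) (N : Set α), μ N = 0 → μ {v | v + a ∈ N} = 0)
    {K : Type*} [LinearOrder K] (D : Set α) (hD : μ D ≠ 0)
    (P : ℕ → Set α) (m : ℕ → ℕ) (G : ℕ → ℕ → α → α)
    (hG : ∀ s, ∀ i < m s, ∀ x ∈ P s, G s i x ∈ D)
    (NS : ∀ s, ∀ i < m s, ∀ Z ⊆ D, μ Z = 0 → μ {x | x ∈ P s ∧ G s i x ∈ Z} = 0)
    (ρ : α → K) (H1 : ∀ ξ, μ {y | y ∈ D ∧ ρ y ≤ ξ} = 0)
    (H2 : ∀ (ξ : K) (N : K → Set α), (∀ η ≤ ξ, μ (N η) = 0) →
      μ {y | y ∈ D ∧ ∃ η ≤ ξ, y ∈ N η} = 0)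
    (e : K → Can) (hNB : ∀ s, ∀ i < m s, NB μ (P s) (fun x => e (ρ (G s i x))))
    (f : K → ℕ → ℕ) (hf : ∀ g : ℕ → ℕ, ∃ ξ, ∃ᶠ i in atTop, f ξ i = g i) :
    ∃ L : α → ℕ, ∀ s n, μ {x | x ∈ P s ∧ ∀ l < m s, n ≤ L (G s l x)} = μ (P s) := by
  classical
  obtain ⟨S, hS, hSe⟩ := exists_enum φ μ countable_isLevel
  have hN : ∀ ξ, μ {v | ∃ᶠ n in atTop, φ v ∈ S n (f ξ n)} = 0 := fun ξ =>
    null_limsup φ μ (fun n => S n (f ξ n)) fun n => (hS n (f ξ n)).2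
  obtain ⟨u, hu⟩ := exists_u μ htr hD ρ H2 (fun ξ => {v | ∃ᶠ n in atTop, φ v ∈ S n (f ξ n)}) hN
    (fun y => φ.symm (e (ρ y)))
  -- the choice of `g`
  have hg : ∀ n : ℕ, ∃ k : ℕ, ∀ s ≤ n, μ (P s) ≤
      μ {x | x ∈ P s ∧ ∀ l < m s, φ (u (G s l x)) ∈ S n k ∨
        φ (u (G s l x) + φ.symm (e (ρ (G s l x)))) ∈ S n k} + (2⁻¹ : ℝ≥0∞) ^ n := by
    intro n
    have hpos : (2⁻¹ : ℝ≥0∞) ^ n ≠ 0 := pow_ne_zero _ (by simp)
    obtain ⟨T, hTl, hTd, hTm⟩ := inf_pairs_of μ hIB (Finset.range (n + 1)) P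
      (fun s => (List.range (m s)).map fun i =>
        ((fun x => φ (u (G s i x))), (fun x => φ (u (G s i x) + φ.symm (e (ρ (G s i x)))))))
      (by
        intro s _ p hp
        obtain ⟨i, hi, rfl⟩ := List.mem_map.mp hp
        exact pnb_of_nb φ μ (fun y => e (ρ y)) (G s i) u (hNB s i (List.mem_range.mp hi)))
      hpos
    obtain ⟨k0, hk0⟩ := exists_small_meas μ (fun k => φ ⁻¹' T k)
      (fun k => φ.measurable (hTl k).measurableSet)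
      (fun a b hab => (hTd hab).preimage φ) hpos
    obtain ⟨k, hk⟩ := hSe n (T k0) (hTl k0) hk0
    refine ⟨k, fun s hs => ?_⟩
    rw [hk]
    refine (hTm k0 s (Finset.mem_range.mpr (Nat.lt_succ_of_le hs))).trans ?_
    refine add_le_add (measure_mono ?_) le_rfl
    rintro x ⟨hx, hxp⟩
    exact ⟨hx, fun l hl => hxp _ (List.mem_map.mpr ⟨l, List.mem_range.mpr hl, rfl⟩)⟩
  choose g hg using hg
  obtain ⟨ξ₀, hξ₀⟩ := hf g
  refine ex_of_sets μ D P m G hG NS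
    (fun n => {y | φ (u y) ∈ S n (f ξ₀ n) ∨ φ (u y + φ.symm (e (ρ y))) ∈ S n (f ξ₀ n)}) ?_ ?_
  · refine measure_mono_null ?_ (H1 ξ₀)
    rintro y ⟨hyD, hyi⟩
    refine ⟨hyD, le_of_not_gt fun hlt => hyi ?_⟩
    obtain ⟨-, h⟩ := hu y
    obtain ⟨h1, h2⟩ := h ξ₀ hlt.le
    have h1' : ∀ᶠ n in atTop, φ (u y) ∉ S n (f ξ₀ n) := not_frequently.mp h1
    have h2' : ∀ᶠ n in atTop, φ (u y + φ.symm (e (ρ y))) ∉ S n (f ξ₀ n) := not_frequently.mp h2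
    obtain ⟨a, ha⟩ := eventually_atTop.mp (h1'.and h2')
    refine (Set.finite_Iio a).subset ?_
    intro i hi
    by_contra hcon
    have h3 := ha i (not_lt.mp hcon)
    rcases hi with h4 | h4
    · exact h3.1 h4
    · exact h3.2 h4
  · refine hξ₀.mono fun i hi s hs => ?_
    rw [hi]
    exact hg i s hs

end Pool.Agent.Lib.A54
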