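import Pool.Agent.Lib.A54.Defs

/-!
Codes of open covers of an increasing family of null sets are nowhere measurable.
-/

namespace Pool.Agent.Lib.A54

open MeasureTheory Set Filter
open scoped ENNReal Topology

theorem exists_basis (α : Type*) [TopologicalSpace α] [SecondCountableTopology α] :
    ∃ B : ℕ → Set α, (∀ b, IsOpen (B b)) ∧
      ∀ U : Set α, IsOpen U → ∀ x ∈ U, ∃ b, x ∈ B b ∧ B b ⊆ U := by
  obtain ⟨b, hbc, _, hb⟩ := TopologicalSpace.exists_countable_basis α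
  rcases b.eq_empty_or_nonempty with he | hne
  · refine ⟨fun _ => ∅, fun _ => isOpen_empty, fun O hO x hx => ?_⟩
    obtain ⟨s, hs, _⟩ := hb.exists_subset_of_mem_open hx hO
    rw [he] at hs
    exact absurd hs (notMem_empty _)
  · obtain ⟨f, hf⟩ := hbc.exists_eq_range hne
    refine ⟨f, fun n => hb.isOpen (by rw [hf]; exact mem_range_self n), fun O hO x hx => ?_⟩
    obtain ⟨s, hs, hxs, hsO⟩ := hb.exists_subset_of_mem_open hx hO
    rw [hf] at hs
    obtain ⟨n, rfl⟩ := hs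
    exact ⟨n, hxs, hsO⟩

theorem exists_code {α : Type*} [TopologicalSpace α] [MeasurableSpace α] (μ : Measure α)
    [μ.OuterRegular] (B : ℕ → Set α) (hBo : ∀ b, IsOpen (B b))
    (hB : ∀ U : Set α, IsOpen U → ∀ x ∈ U, ∃ b, x ∈ B b ∧ B b ⊆ U)
    (N : Set α) (hN : μ N = 0) :
    ∃ z : Can, ∀ n, N ⊆ W B z n ∧ μ (W B z n) ≤ (2⁻¹ : ℝ≥0∞) ^ n := by
  classical
  have hex : ∀ n : ℕ, ∃ O : Set α, N ⊆ O ∧ IsOpen O ∧ μ O < (2⁻¹ : ℝ≥0∞) ^ n := by
    intro n
    have hpos : μ N < (2⁻¹ : ℝ≥0∞) ^ n := by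
      rw [hN]
      exact pos_iff_ne_zero.2 (pow_ne_zero n (ENNReal.inv_ne_zero.2 (by norm_num)))
    obtain ⟨U, hU, hUo, hUlt⟩ := Set.exists_isOpen_lt_of_lt _ _ hpos
    exact ⟨U, hU, hUo, hUlt⟩
  choose O hOsub hOo hOlt using hex
  refine ⟨fun m => decide (B m.unpair.2 ⊆ O m.unpair.1), fun n => ?_⟩
  have hW : W B (fun m => decide (B m.unpair.2 ⊆ O m.unpair.1)) n = O n := by
    ext y
    simp only [W, mem_ofPred_eq, Nat.unpair_pair, decide_eq_true_eq]
    constructor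
    · rintro ⟨b, hb, hy⟩
      exact hb hy
    · intro hy
      obtain ⟨b, hyb, hb⟩ := hB _ (hOo n) y hy
      exact ⟨b, hb, hyb⟩
  rw [hW]
  exact ⟨hOsub n, (hOlt n).le⟩

variable {α : Type*} [MeasurableSpace α] (μ : Measure α) [IsFiniteMeasure μ]

theorem nb_code (B : ℕ → Set α) (hB : ∀ b, MeasurableSet (B b)) {K : Type*} [LinearOrder K]
    {D : Set α} (hD : μ D ≠ 0) (ρ : α → K) (H1 : ∀ ξ, μ {y | y ∈ D ∧ ρ y ≤ ξ} = 0)
    (e : K → Can)
    (he : ∀ ξ n, {y | y ∈ D ∧ ρ y ≤ ξ} ⊆ W B (e ξ) n ∧ μ (W B (e ξ) n) ≤ (2⁻¹ : ℝ≥0∞) ^ n)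
    (P : Set α) (G : α → α) (hNS : ∀ Z ⊆ D, μ Z = 0 → μ {x | x ∈ P ∧ G x ∈ Z} = 0)
    (hG : ∀ x ∈ P, G x ∈ D) : NB μ P (fun x => e (ρ (G x))) := by
  intro β hβ
  set S : ℕ → Set (α × α) := fun n => {p | p.2 ∈ W B (β p.1) n} with hS
  have hSm : ∀ n, MeasurableSet (S n) := by
    intro n
    have : S n = ⋃ b, {x | β x (Nat.pair n b) = true} ×ˢ B b := by
      ext p
      simp only [hS, W, mem_ofPred_eq, mem_iUnion, mem_prod]
    rw [this]
    refine MeasurableSet.iUnion fun b => MeasurableSet.prod ?_ (hB b)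
    have hm : Measurable fun x => β x (Nat.pair n b) := (measurable_pi_apply _).comp hβ
    exact hm (measurableSet_singleton true)
  set X₀ : Set α := {x | ∀ n, μ (W B (β x) n) ≤ (2⁻¹ : ℝ≥0∞) ^ n} with hX₀
  have hX₀m : MeasurableSet X₀ := by
    have : X₀ = ⋂ n : ℕ, {x | μ (W B (β x) n) ≤ (2⁻¹ : ℝ≥0∞) ^ n} := by
      ext x
      simp only [hX₀, mem_ofPred_eq, mem_iInter]
    rw [this]
    refine MeasurableSet.iInter fun n => ?_
    have hm : Measurable fun x => μ (Prod.mk x ⁻¹' (S n)) := measurable_measure_prodMk_left (hSm n)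
    exact measurableSet_le hm measurable_const
  set T : Set (α × α) := (X₀ ×ˢ univ) ∩ ⋂ n, S n with hT
  have hTm : MeasurableSet T := (hX₀m.prod MeasurableSet.univ).inter (MeasurableSet.iInter hSm)
  have hT0 : (μ.prod μ) T = 0 := by
    rw [Measure.measure_prod_null hTm]
    refine Filter.Eventually.of_forall fun x => ?_
    simp only [Pi.zero_apply]
    by_cases hx : x ∈ X₀
    · have hle : ∀ n : ℕ, μ (Prod.mk x ⁻¹' T) ≤ (2⁻¹ : ℝ≥0∞) ^ n := by
        intro n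
        refine le_trans (measure_mono ?_) (hx n)
        intro y hy
        exact (mem_iInter.1 hy.2 n : _)
      have ht : Tendsto (fun n : ℕ => (2⁻¹ : ℝ≥0∞) ^ n) atTop (𝓝 0) :=
        ENNReal.tendsto_pow_atTop_nhds_zero_of_lt_one ENNReal.one_half_lt_one
      exact le_antisymm (ge_of_tendsto' ht hle) bot_le
    · have : Prod.mk x ⁻¹' T = ∅ := by
        ext y
        simp only [mem_preimage, mem_empty_iff_false, iff_false]
        intro hy
        exact hx hy.1.1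
      rw [this, measure_empty]
  have hsec : ∀ᵐ y ∂μ, μ ((fun x => (x, y)) ⁻¹' T) = 0 := by
    rw [Measure.prod_apply_symm hTm] at hT0
    have := (lintegral_eq_zero_iff (measurable_measure_prodMk_right hTm)).1 hT0
    exact this
  have hy : ∃ y ∈ D, μ ((fun x => (x, y)) ⁻¹' T) = 0 := by
    by_contra hcon
    push Not at hcon
    exact hD (measure_mono_null (fun y hy => hcon y hy) hsec)
  obtain ⟨y, hyD, hy0⟩ := hy
  have hnull : μ {x | x ∈ P ∧ G x ∈ {z | z ∈ D ∧ ρ z ≤ ρ y}} = 0 :=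
    hNS _ (fun z hz => hz.1) (H1 _)
  refine measure_mono_null ?_ (measure_union_null hy0 hnull)
  rintro x ⟨hxP, hxe⟩
  rcases le_total (ρ (G x)) (ρ y) with hle | hle
  · exact Or.inr ⟨hxP, hG x hxP, hle⟩
  · refine Or.inl ⟨⟨?_, mem_univ _⟩, mem_iInter.2 fun n => ?_⟩
    · intro n
      change μ (W B (β x) n) ≤ _
      rw [← hxe]
      exact (he _ n).2
    · change y ∈ W B (β x) n
      rw [← hxe]
      exact (he _ n).1 ⟨hyD, hle⟩

end Pool.Agent.Lib.A54
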