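import Pool.Agent.Lib.A54.Spl
import Pool.Agent.Lib.A54.Pairs
import Pool.Agent.Lib.A54.Code
import Pool.Agent.Lib.A54.Case1
import Pool.Agent.Lib.A54.Case2b

/-!
The core of the full answer of MP_a54a32_lc: on a homogeneous set there is a function `L` that is
large, on full sets, at all coordinates of countably many nonsingular systems.
-/

namespace Pool.Agent.Lib.A54

open MeasureTheory Set Filter
open scoped ENNReal Topology

theorem infBlocks {α : Type*} [MeasurableSpace α] (μ : Measure α) [IsFiniteMeasure μ] :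
    InfBlocks μ := fun BL h _ hε => inf_blocks μ BL h hε

theorem core {α : Type*} [TopologicalSpace α] [SecondCountableTopology α] [MeasurableSpace α]
    [BorelSpace α] [AddGroup α] [MeasurableAdd₂ α] [MeasurableNeg α]
    (φ : α ≃ᵐ Can) (μ : Measure α) [IsFiniteMeasure μ] [μ.OuterRegular]
    (htr : ∀ (a : α) (N : Set α), μ N = 0 → μ {v | v + a ∈ N} = 0)
    {K : Type*} [LinearOrder K] (D : Set α) (hD : μ D ≠ 0)
    (P : ℕ → Set α) (m : ℕ → ℕ) (G : ℕ → ℕ → α → α)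
    (hG : ∀ s, ∀ i < m s, ∀ x ∈ P s, G s i x ∈ D)
    (NS : ∀ s, ∀ i < m s, ∀ Z ⊆ D, μ Z = 0 → μ {x | x ∈ P s ∧ G s i x ∈ Z} = 0)
    (ρ : α → K) (H1 : ∀ ξ, μ {y | y ∈ D ∧ ρ y ≤ ξ} = 0)
    (H2 : ∀ (ξ : K) (N : K → Set α), (∀ η ≤ ξ, μ (N η) = 0) →
      μ {y | y ∈ D ∧ ∃ η ≤ ξ, y ∈ N η} = 0) :
    ∃ L : α → ℕ, ∀ s n, μ {x | x ∈ P s ∧ ∀ l < m s, n ≤ L (G s l x)} = μ (P s) := by
  classical
  obtain ⟨B, hBo, hB⟩ := exists_basis α
  have hcode : ∀ ξ : K, ∃ z : Can, ∀ n, {y | y ∈ D ∧ ρ y ≤ ξ} ⊆ W B z n ∧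
      μ (W B z n) ≤ (2⁻¹ : ℝ≥0∞) ^ n := fun ξ => exists_code μ B hBo hB _ (H1 ξ)
  choose e he using hcode
  have hNB : ∀ s, ∀ i < m s, NB μ (P s) (fun x => e (ρ (G s i x))) := fun s i hi =>
    nb_code μ B (fun b => (hBo b).measurableSet) hD ρ H1 e he (P s) (G s i) (NS s i hi) (hG s i hi)
  have hpow : ∀ i : ℕ, (2⁻¹ : ℝ≥0∞) ^ i ≠ 0 := fun i => pow_ne_zero i (by simp)
  have hT : ∀ i : ℕ, ∃ T : ℕ → Set Can, (∀ k, IsLevel (T k)) ∧
      Pairwise (Function.onFun Disjoint T) ∧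
      ∀ k, ∀ s ∈ Finset.range (i + 1), μ (P s) ≤
        μ {x | x ∈ P s ∧ ∀ p ∈ (List.range (m s)).map
          (fun l => ((fun x => e (ρ (G s l x)), fun x => e (ρ (G s l x))) :
            (α → Can) × (α → Can))), p.1 x ∈ T k ∨ p.2 x ∈ T k} + (2⁻¹ : ℝ≥0∞) ^ i := by
    intro i
    refine inf_pairs_of μ (infBlocks μ) (Finset.range (i + 1)) P _ ?_ (hpow i)
    intro s _ p hp β γ hβ hγ
    obtain ⟨l, hl, rfl⟩ := List.mem_map.1 hp
    refine measure_mono_null ?_ (hNB s l (List.mem_range.1 hl) β hβ)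
    rintro x ⟨hx1, hx2, _⟩
    exact ⟨hx1, hx2⟩
  choose T hTl hTd hTm using hT
  have hTm' : ∀ i k, ∀ s ≤ i, μ (P s) ≤
      μ {x | x ∈ P s ∧ ∀ l < m s, e (ρ (G s l x)) ∈ T i k} + (2⁻¹ : ℝ≥0∞) ^ i := by
    intro i k s hs
    refine (hTm i k s (Finset.mem_range.2 (Nat.lt_succ_of_le hs))).trans ?_
    refine add_le_add (measure_mono ?_) le_rfl
    rintro x ⟨hx1, hx2⟩
    refine ⟨hx1, fun l hl => ?_⟩
    have := hx2 _ (List.mem_map.2 ⟨l, List.mem_range.2 hl, rfl⟩)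
    exact this.elim id id
  let f : K → ℕ → ℕ := fun ξ i => if h : ∃ k, e ξ ∈ T i k then h.choose else 0
  have hf : ∀ ξ i k, e ξ ∈ T i k → f ξ i = k := by
    intro ξ i k hk
    have hex : ∃ k, e ξ ∈ T i k := ⟨k, hk⟩
    have h1 : f ξ i = hex.choose := dif_pos hex
    rw [h1]
    by_contra hne
    exact disjoint_left.1 (hTd i hne) hex.choose_spec hk
  by_cases hcase : ∃ g : ℕ → ℕ, ∀ ξ, ∀ᶠ i in atTop, f ξ i ≠ g i
  · obtain ⟨g, hg⟩ := hcase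
    refine case1 μ D P m G hG NS ρ e T hTm' g (fun ξ => ?_)
    filter_upwards [hg ξ] with i hi hmem
    exact hi (hf ξ i (g i) hmem)
  · push Not at hcase
    refine case2_of φ μ (infBlocks μ) htr D hD P m G hG NS ρ H1 H2 e hNB f (fun g => ?_)
    obtain ⟨ξ, hξ⟩ := hcase g
    exact ⟨ξ, hξ⟩

end Pool.Agent.Lib.A54
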