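import Pool.Agent.Lib.A54.Defs

/-!
Row K of the full answer of MP_a54a32_lc: from a function `L` to the cut property.
-/

namespace Pool.Agent.Lib.A54

open MeasureTheory Set Filter
open scoped ENNReal Topology

section
variable {α : Type*} [MeasurableSpace α] (μ : Measure α) [IsFiniteMeasure μ]

/-- Continuity from below for outer measure, in the form used here. -/
theorem eventually_le_add {s : ℕ → Set α} (hs : Monotone s) {ε : ℝ≥0∞} (hε : ε ≠ 0) :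
    ∀ᶠ b in atTop, μ (⋃ n, s n) ≤ μ (s b) + ε := by
  have ht : Tendsto (μ ∘ s) atTop (𝓝 (μ (⋃ n, s n))) := tendsto_measure_iUnion_atTop hs
  by_cases h0 : μ (⋃ n, s n) = 0
  · exact Eventually.of_forall fun b => by rw [h0]; exact zero_le
  · have hlt : μ (⋃ n, s n) - ε < μ (⋃ n, s n) :=
      ENNReal.sub_lt_self (measure_ne_top μ _) h0 hε
    filter_upwards [ht.eventually_const_lt hlt] with b hb
    exact tsub_le_iff_right.1 hb.le

/-- From the function `L` to the cut property. -/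
theorem cut_of_L (F : α → Set α) (hF : ∀ x, (F x).Finite) (D : Set α) (P : ℕ → Set α)
    (L : α → ℕ) (hLD : ∀ n, μ {y | y ∈ D ∧ n ≤ L y} = μ D)
    (hLP : ∀ k n, μ {x | x ∈ P k ∧ ∀ y ∈ F x, y ∈ D → n ≤ L y} = μ (P k)) :
    ∃ Y ⊆ D, μ Y = μ D ∧ ∀ k, μ {x | x ∈ P k ∧ Disjoint (F x) Y} = μ (P k) := by
  classical
  -- the two steps
  have step1 : ∀ (a r : ℕ), ∃ b, a < b ∧
      μ D ≤ μ {y | y ∈ D ∧ a ≤ L y ∧ L y < b} + (2⁻¹ : ℝ≥0∞) ^ r := by
    intro a r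
    have hmono : Monotone fun b : ℕ => {y | y ∈ D ∧ a ≤ L y ∧ L y < b} := by
      intro b b' hbb y hy
      exact ⟨hy.1, hy.2.1, lt_of_lt_of_le hy.2.2 hbb⟩
    have hU : (⋃ b : ℕ, {y | y ∈ D ∧ a ≤ L y ∧ L y < b}) = {y | y ∈ D ∧ a ≤ L y} := by
      ext y
      simp only [mem_iUnion, mem_setOf_eq]
      constructor
      · rintro ⟨b, h1, h2, -⟩
        exact ⟨h1, h2⟩
      · rintro ⟨h1, h2⟩
        exact ⟨L y + 1, h1, h2, Nat.lt_succ_self _⟩
    have hε : ((2⁻¹ : ℝ≥0∞) ^ r) ≠ 0 := by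
      refine pow_ne_zero _ ?_
      simp
    have h := eventually_le_add μ hmono hε
    rw [hU, hLD a] at h
    obtain ⟨b, hb1, hb2⟩ := (h.and (eventually_gt_atTop a)).exists
    exact ⟨b, hb2, hb1⟩
  have step2 : ∀ (b r : ℕ), ∃ a, b < a ∧ ∀ k ≤ r,
      μ (P k) ≤ μ {x | x ∈ P k ∧ ∀ y ∈ F x, y ∈ D → b ≤ L y ∧ L y < a} + (2⁻¹ : ℝ≥0∞) ^ r := by
    intro b r
    have hε : ((2⁻¹ : ℝ≥0∞) ^ r) ≠ 0 := by
      refine pow_ne_zero _ ?_
      simp
    have hk : ∀ k, ∀ᶠ a in atTop,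
        μ (P k) ≤ μ {x | x ∈ P k ∧ ∀ y ∈ F x, y ∈ D → b ≤ L y ∧ L y < a} +
          (2⁻¹ : ℝ≥0∞) ^ r := by
      intro k
      have hmono : Monotone fun a : ℕ =>
          {x | x ∈ P k ∧ ∀ y ∈ F x, y ∈ D → b ≤ L y ∧ L y < a} := by
        intro a a' haa x hx
        exact ⟨hx.1, fun y hy hyD => ⟨(hx.2 y hy hyD).1, lt_of_lt_of_le (hx.2 y hy hyD).2 haa⟩⟩
      have hU : (⋃ a : ℕ, {x | x ∈ P k ∧ ∀ y ∈ F x, y ∈ D → b ≤ L y ∧ L y < a}) =
          {x | x ∈ P k ∧ ∀ y ∈ F x, y ∈ D → b ≤ L y} := by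
        ext x
        simp only [mem_iUnion, mem_setOf_eq]
        constructor
        · rintro ⟨a, h1, h2⟩
          exact ⟨h1, fun y hy hyD => (h2 y hy hyD).1⟩
        · rintro ⟨h1, h2⟩
          obtain ⟨M, hM⟩ := ((hF x).image L).bddAbove
          refine ⟨M + 1, h1, fun y hy hyD => ⟨h2 y hy hyD, ?_⟩⟩
          have := hM (mem_image_of_mem L hy)
          omega
      have h := eventually_le_add μ hmono hε
      rwa [hU, hLP k b] at h
    have hall : ∀ᶠ a in atTop, ∀ k ∈ Finset.range (r + 1),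
        μ (P k) ≤ μ {x | x ∈ P k ∧ ∀ y ∈ F x, y ∈ D → b ≤ L y ∧ L y < a} +
          (2⁻¹ : ℝ≥0∞) ^ r := by
      rw [eventually_all_finset]
      exact fun k _ => hk k
    obtain ⟨a, ha1, ha2⟩ := (hall.and (eventually_gt_atTop b)).exists
    exact ⟨a, ha2, fun k hkr => ha1 k (Finset.mem_range.2 (Nat.lt_succ_of_le hkr))⟩
  choose nb hnb1 hnb2 using step1
  choose na hna1 hna2 using step2
  let a : ℕ → ℕ := fun r => Nat.rec 0 (fun r x => na (nb x r) r) r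
  let b : ℕ → ℕ := fun r => nb (a r) r
  have ha_succ : ∀ r, a (r + 1) = na (b r) r := fun r => rfl
  have hab : ∀ r, a r < b r := fun r => hnb1 (a r) r
  have hba : ∀ r, b r < a (r + 1) := fun r => by rw [ha_succ]; exact hna1 (b r) r
  have ha_mono : Monotone a := monotone_nat_of_le_succ fun r => ((hab r).trans (hba r)).le
  have hb_mono : Monotone b := monotone_nat_of_le_succ fun r =>
    ((hba r).trans (hab (r + 1))).le
  have hzero : Tendsto (fun r : ℕ => (2⁻¹ : ℝ≥0∞) ^ r) atTop (𝓝 0) :=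
    ENNReal.tendsto_pow_atTop_nhds_zero_of_lt_one (by simp)
  refine ⟨{y | y ∈ D ∧ ∃ r, a r ≤ L y ∧ L y < b r}, fun y hy => hy.1, ?_, ?_⟩
  · refine le_antisymm (measure_mono fun y hy => hy.1) ?_
    have hr : ∀ r : ℕ, μ D ≤ μ {y | y ∈ D ∧ ∃ r, a r ≤ L y ∧ L y < b r} +
        (2⁻¹ : ℝ≥0∞) ^ r := by
      intro r
      refine (hnb2 (a r) r).trans (add_le_add_left (measure_mono ?_) _)
      intro y hy
      exact ⟨hy.1, r, hy.2⟩
    have ht : Tendsto (fun r : ℕ => μ {y | y ∈ D ∧ ∃ r, a r ≤ L y ∧ L y < b r} +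
        (2⁻¹ : ℝ≥0∞) ^ r) atTop (𝓝 (μ {y | y ∈ D ∧ ∃ r, a r ≤ L y ∧ L y < b r} + 0)) :=
      tendsto_const_nhds.add hzero
    rw [add_zero] at ht
    exact ge_of_tendsto' ht hr
  · intro k
    refine le_antisymm (measure_mono fun y hy => hy.1) ?_
    have hr : ∀ r : ℕ, k ≤ r → μ (P k) ≤
        μ {x | x ∈ P k ∧ Disjoint (F x) {y | y ∈ D ∧ ∃ r, a r ≤ L y ∧ L y < b r}} +
        (2⁻¹ : ℝ≥0∞) ^ r := by
      intro r hkr
      refine (hna2 (b r) r k hkr).trans (add_le_add_left (measure_mono ?_) _)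
      intro x hx
      refine ⟨hx.1, ?_⟩
      rw [Set.disjoint_left]
      rintro y hy ⟨hyD, r', h1, h2⟩
      obtain ⟨h3, h4⟩ := hx.2 y hy hyD
      rw [← ha_succ] at h4
      rcases le_or_gt r' r with h | h
      · have := hb_mono h
        omega
      · have := ha_mono (Nat.succ_le_of_lt h)
        simp only [Nat.succ_eq_add_one] at this
        omega
    have ht : Tendsto (fun r : ℕ =>
        μ {x | x ∈ P k ∧ Disjoint (F x) {y | y ∈ D ∧ ∃ r, a r ≤ L y ∧ L y < b r}} +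
        (2⁻¹ : ℝ≥0∞) ^ r) atTop
        (𝓝 (μ {x | x ∈ P k ∧ Disjoint (F x) {y | y ∈ D ∧ ∃ r, a r ≤ L y ∧ L y < b r}} + 0)) :=
      tendsto_const_nhds.add hzero
    rw [add_zero] at ht
    exact ge_of_tendsto ht (eventually_atTop.2 ⟨k, hr⟩)

end

end Pool.Agent.Lib.A54
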