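import Pool.Agent.Lib.A54.Nonsing
import Pool.Agent.Lib.A54.CutL
import Pool.Agent.Lib.A54.Core

/-!
Row M2 of the full answer of MP_a54a32_lc: the cut property of homogeneous sets.
-/

namespace Pool.Agent.Lib.A54

open MeasureTheory Set Filter
open scoped ENNReal Topology

theorem ce_homogeneous {α : Type*} [TopologicalSpace α] [SecondCountableTopology α]
    [MeasurableSpace α] [BorelSpace α] [AddGroup α] [MeasurableAdd₂ α] [MeasurableNeg α]
    (φ : α ≃ᵐ Can) (μ : Measure α) [IsFiniteMeasure μ] [μ.OuterRegular]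
    (htr : ∀ (a : α) (N : Set α), μ N = 0 → μ {v | v + a ∈ N} = 0)
    (F : α → Set α) (hF : ∀ x, (F x).Finite)
    {K : Type*} [LinearOrder K] (D : Set α) (hD : μ D ≠ 0)
    (ρ : α → K) (H1 : ∀ ξ, μ {y | y ∈ D ∧ ρ y ≤ ξ} = 0)
    (H2 : ∀ (ξ : K) (N : K → Set α), (∀ η ≤ ξ, μ (N η) = 0) →
      μ {y | y ∈ D ∧ ∃ η ≤ ξ, y ∈ N η} = 0) : CE μ F D := by
  classical
  intro P
  obtain ⟨Z, hZD, hZ0, P', hP', hNS⟩ := nonsingular μ F hF D P
  set E : Set α := D \ Z with hE
  have hED : E ⊆ D := sdiff_subset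
  have hμE : μ E = μ D := by
    refine le_antisymm (measure_mono hED) ?_
    calc μ D ≤ μ (E ∪ Z) := measure_mono (by
            intro y hy
            by_cases hyZ : y ∈ Z
            · exact Or.inr hyZ
            · exact Or.inl ⟨hy, hyZ⟩)
      _ ≤ μ E + μ Z := measure_union_le _ _
      _ = μ E := by rw [hZ0, add_zero]
  have hE0 : μ E ≠ 0 := by rw [hμE]; exact hD
  -- enumeration of `F x ∩ E`
  have hfin : ∀ x, (F x ∩ E).Finite := fun x => (hF x).subset inter_subset_left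
  let l : α → List α := fun x => (hfin x).toFinset.toList
  have hl : ∀ x y, y ∈ l x ↔ y ∈ F x ∧ y ∈ E := by
    intro x y
    simp [l]
  have hlen : ∀ x, (l x).length = (F x ∩ E).ncard := by
    intro x
    simp only [l, Finset.length_toList]
    exact (ncard_eq_toFinset_card _ (hfin x)).symm
  let Q : ℕ → Set α := fun s => match s with
    | 0 => E
    | s + 1 => {x | x ∈ P' (Nat.unpair s).1 ∧ (F x ∩ E).ncard = (Nat.unpair s).2}
  let m : ℕ → ℕ := fun s => match s with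
    | 0 => 1
    | s + 1 => (Nat.unpair s).2
  let G : ℕ → ℕ → α → α := fun s => match s with
    | 0 => fun _ x => x
    | _ + 1 => fun i x => (l x).getD i x
  have hGmem : ∀ x i, i < (F x ∩ E).ncard → (l x).getD i x ∈ l x := by
    intro x i hi
    have h1 : i < (l x).length := by rw [hlen]; exact hi
    rw [List.getD_eq_getElem _ _ h1]
    exact List.getElem_mem h1
  have hG : ∀ s, ∀ i < m s, ∀ x ∈ Q s, G s i x ∈ E := by
    intro s i hi x hx
    cases s with
    | zero => exact hx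
    | succ s =>
      have hx2 : (F x ∩ E).ncard = (Nat.unpair s).2 := hx.2
      have hi2 : i < (F x ∩ E).ncard := by rw [hx2]; exact hi
      exact ((hl x _).1 (hGmem x i hi2)).2
  have NS : ∀ s, ∀ i < m s, ∀ Z' ⊆ E, μ Z' = 0 → μ {x | x ∈ Q s ∧ G s i x ∈ Z'} = 0 := by
    intro s i hi Z' hZ' hμZ'
    cases s with
    | zero =>
      refine measure_mono_null ?_ hμZ'
      intro x hx
      exact hx.2
    | succ s =>
      refine measure_mono_null ?_ (hNS (Nat.unpair s).1 Z' hZ' hμZ')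
      intro x hx
      have hx2 : (F x ∩ E).ncard = (Nat.unpair s).2 := hx.1.2
      have hi2 : i < (F x ∩ E).ncard := by rw [hx2]; exact hi
      refine ⟨hx.1.1, ?_⟩
      rw [Set.not_disjoint_iff]
      exact ⟨_, ((hl x _).1 (hGmem x i hi2)).1, hx.2⟩
  have H1' : ∀ ξ, μ {y | y ∈ E ∧ ρ y ≤ ξ} = 0 := by
    intro ξ
    refine measure_mono_null ?_ (H1 ξ)
    intro y hy
    exact ⟨hED hy.1, hy.2⟩
  have H2' : ∀ (ξ : K) (N : K → Set α), (∀ η ≤ ξ, μ (N η) = 0) →
      μ {y | y ∈ E ∧ ∃ η ≤ ξ, y ∈ N η} = 0 := by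
    intro ξ N hN
    refine measure_mono_null ?_ (H2 ξ N hN)
    intro y hy
    exact ⟨hED hy.1, hy.2⟩
  obtain ⟨L, hL⟩ := core φ μ htr E hE0 Q m G hG NS ρ H1' H2'
  have hLD : ∀ n, μ {y | y ∈ E ∧ n ≤ L y} = μ E := by
    intro n
    have h0 := hL 0 n
    refine le_antisymm (measure_mono fun y hy => hy.1) ?_
    have h1 : μ (Q 0) = μ E := rfl
    rw [← h1, ← h0]
    refine measure_mono ?_
    intro x hx
    exact ⟨hx.1, hx.2 0 Nat.zero_lt_one⟩
  have hLP : ∀ k n, μ {x | x ∈ P' k ∧ ∀ y ∈ F x, y ∈ E → n ≤ L y} = μ (P' k) := by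
    intro k n
    refine le_antisymm (measure_mono fun y hy => hy.1) ?_
    have hU : P' k = ⋃ j : ℕ, Q (Nat.pair k j + 1) := by
      ext x
      simp only [mem_iUnion]
      constructor
      · intro hx
        refine ⟨(F x ∩ E).ncard, ?_⟩
        show x ∈ {x | x ∈ P' (Nat.unpair (Nat.pair k _)).1 ∧
          (F x ∩ E).ncard = (Nat.unpair (Nat.pair k _)).2}
        rw [Nat.unpair_pair]
        exact ⟨hx, rfl⟩
      · rintro ⟨j, hj⟩
        have hj1 : x ∈ P' (Nat.unpair (Nat.pair k j)).1 := hj.1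
        simpa only [Nat.unpair_pair] using hj1
    have hc := measure_iUnion_congr_of_subset (μ := μ)
      (s := fun j : ℕ => {x | x ∈ Q (Nat.pair k j + 1) ∧
        ∀ i < m (Nat.pair k j + 1), n ≤ L (G (Nat.pair k j + 1) i x)})
      (t := fun j : ℕ => Q (Nat.pair k j + 1))
      (fun j x hx => hx.1) (fun j => (hL (Nat.pair k j + 1) n).ge)
    rw [hU, ← hc]
    refine measure_mono ?_
    intro x hx
    simp only [mem_iUnion] at hx
    obtain ⟨j, hxQ, hxL⟩ := hx
    have hx2 : (F x ∩ E).ncard = (Nat.unpair (Nat.pair k j)).2 := hxQ.2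
    refine ⟨mem_iUnion.2 ⟨j, hxQ⟩, ?_⟩
    intro y hyF hyE
    obtain ⟨i, hi, rfl⟩ := List.mem_iff_getElem.1 ((hl x y).2 ⟨hyF, hyE⟩)
    have hi2 : i < m (Nat.pair k j + 1) := by
      show i < (Nat.unpair (Nat.pair k j)).2
      rw [← hx2, ← hlen]
      exact hi
    have h3 := hxL i hi2
    have h4 : G (Nat.pair k j + 1) i x = (l x)[i] := by
      show (l x).getD i x = _
      exact List.getD_eq_getElem _ _ hi
    rw [h4] at h3
    exact h3
  obtain ⟨Y, hYE, hμY, hYP⟩ := cut_of_L μ F hF E P' L hLD hLP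
  refine ⟨Y, hYE.trans hED, hμY.trans hμE, fun k => ?_⟩
  refine le_antisymm (measure_mono fun y hy => hy.1) ?_
  rw [← (hP' k).2, ← hYP k]
  exact measure_mono fun x hx => ⟨(hP' k).1 hx.1, hx.2⟩

end Pool.Agent.Lib.A54
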