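import Pool.Agent.Lib.A54.Case2b
import Pool.Agent.Lib.A54.Spl

/-!
Case 2 of the full answer of MP_a54a32_lc, final form.
-/

namespace Pool.Agent.Lib.A54

open MeasureTheory Set Filter
open scoped ENNReal Topology

theorem case2 {α : Type*} [MeasurableSpace α] [AddGroup α] [MeasurableAdd₂ α] [MeasurableNeg α]
    (φ : α ≃ᵐ Can) (μ : Measure α) [IsFiniteMeasure μ]
    (htr : ∀ (a : α) (N : Set α), μ N = 0 → μ {v | v + a ∈ N} = 0)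
    {K : Type*} [LinearOrder K] (D : Set α) (hD : μ D ≠ 0)
    (P : ℕ → Set α) (m : ℕ → ℕ) (G : ℕ → ℕ → α → α)
    (hG : ∀ s, ∀ i < m s, ∀ x ∈ P s, G s i x ∈ D)
    (NS : ∀ s, ∀ i < m s, ∀ Z ⊆ D, μ Z = 0 → μ {x | x ∈ P s ∧ G s i x ∈ Z} = 0)
    (ρ : α → K) (H1 : ∀ ξ, μ {y | y ∈ D ∧ ρ y ≤ ξ} = 0)
    (H2 : ∀ (ξ : K) (N : K → Set α), (∀ η ≤ ξ, μ (N η) = 0) →
      μ {y | y ∈ D ∧ ∃ η ≤ ξ, y ∈ N η} = 0)
    (e : K → Can) (hNB : ∀ s, ∀ i < m s, NB μ (P s) (fun x => e (ρ (G s i x))))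
    (f : K → ℕ → ℕ) (hf : ∀ g : ℕ → ℕ, ∃ ξ, ∃ᶠ i in atTop, f ξ i = g i) :
    ∃ L : α → ℕ, ∀ s n, μ {x | x ∈ P s ∧ ∀ l < m s, n ≤ L (G s l x)} = μ (P s) :=
  case2_of φ μ (fun BL h _ hε => inf_blocks μ BL h hε) htr D hD P m G hG NS ρ H1 H2 e hNB f hf

end Pool.Agent.Lib.A54
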