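import Pool.Agent.Lib.A54.Defs

/-!
Lemmas for case 2 of the full answer of MP_a54a32_lc.
-/

namespace Pool.Agent.Lib.A54

open MeasureTheory Set Filter
open scoped ENNReal Topology

/-- A pair `(u, u + t)` is nowhere measurable when `t` is nowhere measurable. -/
theorem pnb_of_nb {α : Type*} [MeasurableSpace α] [AddGroup α] [MeasurableAdd₂ α]
    [MeasurableNeg α] (φ : α ≃ᵐ Can) (μ : Measure α) {P : Set α} (v : α → Can) (G u : α → α)
    (h : NB μ P (fun x => v (G x))) :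
    PNB μ P (fun x => φ (u (G x))) (fun x => φ (u (G x) + φ.symm (v (G x)))) := by
  intro β γ hβ hγ
  have hm : Measurable (fun x => φ (-(φ.symm (β x)) + φ.symm (γ x))) :=
    φ.measurable.comp (((φ.symm.measurable.comp hβ).neg).add (φ.symm.measurable.comp hγ))
  refine measure_mono_null ?_ (h _ hm)
  rintro x ⟨hx, h1, h2⟩
  refine ⟨hx, ?_⟩
  have h1' : φ.symm (β x) = u (G x) := by
    rw [← h1]; exact φ.symm_apply_apply _
  have h2' : φ.symm (γ x) = u (G x) + φ.symm (v (G x)) := by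
    rw [← h2]; exact φ.symm_apply_apply _
  show v (G x) = φ (-(φ.symm (β x)) + φ.symm (γ x))
  rw [h1', h2', neg_add_cancel_left, φ.apply_symm_apply]

/-- The choice of `u`. -/
theorem exists_u {α : Type*} [MeasurableSpace α] [AddGroup α] (μ : Measure α)
    (htr : ∀ (a : α) (N : Set α), μ N = 0 → μ {v | v + a ∈ N} = 0)
    {K : Type*} [LinearOrder K] {D : Set α} (hD : μ D ≠ 0) (ρ : α → K)
    (H2 : ∀ (ξ : K) (N : K → Set α), (∀ η ≤ ξ, μ (N η) = 0) →
      μ {y | y ∈ D ∧ ∃ η ≤ ξ, y ∈ N η} = 0)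
    (N : K → Set α) (hN : ∀ ξ, μ (N ξ) = 0) (t : α → α) :
    ∃ u : α → α, ∀ y, u y ∈ D ∧ ∀ η ≤ ρ y, u y ∉ N η ∧ u y + t y ∉ N η := by
  have key : ∀ y, ∃ v, v ∈ D ∧ ∀ η ≤ ρ y, v ∉ N η ∧ v + t y ∉ N η := by
    intro y
    have h0 := H2 (ρ y) (fun η => N η ∪ {v | v + t y ∈ N η}) (fun η _ =>
      measure_union_null (hN η) (htr _ _ (hN η)))
    by_contra hcon
    push_neg at hcon
    refine hD (measure_mono_null ?_ h0)
    intro v hv
    obtain ⟨η, hη, h1⟩ := hcon v hv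
    refine ⟨hv, η, hη, ?_⟩
    by_cases h2 : v ∈ N η
    · exact Or.inl h2
    · exact Or.inr (h1 h2)
  choose u hu using key
  exact ⟨u, hu⟩

/-- Enumeration of the level sets of small measure. -/
theorem exists_enum {α : Type*} [MeasurableSpace α] (φ : α ≃ᵐ Can) (μ : Measure α)
    (hc : {S : Set Can | IsLevel S}.Countable) :
    ∃ S : ℕ → ℕ → Set Can, (∀ n k, IsLevel (S n k) ∧ μ (φ ⁻¹' S n k) ≤ (2⁻¹ : ℝ≥0∞) ^ n) ∧
      ∀ n T, IsLevel T → μ (φ ⁻¹' T) ≤ (2⁻¹ : ℝ≥0∞) ^ n → ∃ k, S n k = T := by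
  have key : ∀ n : ℕ, ∃ s : ℕ → Set Can, {T : Set Can | IsLevel T ∧
      μ (φ ⁻¹' T) ≤ (2⁻¹ : ℝ≥0∞) ^ n} = range s := by
    intro n
    refine (hc.mono ?_).exists_eq_range ⟨∅, ?_, ?_⟩
    · exact fun T hT => hT.1
    · exact ⟨0, fun _ _ _ h => h⟩
    · simp
  choose s hs using key
  refine ⟨s, fun n k => ?_, fun n T hT hT' => ?_⟩
  · have : s n k ∈ range (s n) := ⟨k, rfl⟩
    rw [← hs n] at this
    exact this
  · have : T ∈ range (s n) := by
      rw [← hs n]; exact ⟨hT, hT'⟩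
    exact this

/-- Borel-Cantelli. -/
theorem null_limsup {α : Type*} [MeasurableSpace α] (φ : α → Can) (μ : Measure α)
    (S : ℕ → Set Can) (hS : ∀ n, μ (φ ⁻¹' S n) ≤ (2⁻¹ : ℝ≥0∞) ^ n) :
    μ {v | ∃ᶠ n in atTop, φ v ∈ S n} = 0 := by
  refine measure_setOf_frequently_eq_zero (p := fun n v => φ v ∈ S n) ?_
  refine ne_of_lt (lt_of_le_of_lt (ENNReal.tsum_le_tsum hS) ?_)
  rw [ENNReal.tsum_geometric]
  simp

/-- Among disjoint sets of finite total measure one is small. -/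
theorem exists_small_meas {α : Type*} [MeasurableSpace α] (μ : Measure α) [IsFiniteMeasure μ]
    (T : ℕ → Set α) (hTm : ∀ k, MeasurableSet (T k)) (hT : Pairwise (Function.onFun Disjoint T))
    {ε : ℝ≥0∞} (hε : ε ≠ 0) : ∃ k, μ (T k) ≤ ε := by
  by_contra hcon
  push_neg at hcon
  have h1 : ∑' k, μ (T k) ≤ μ univ := by
    rw [← measure_iUnion hT hTm]
    exact measure_mono (subset_univ _)
  have h2 : ∑' _ : ℕ, ε ≤ ∑' k, μ (T k) := ENNReal.tsum_le_tsum fun k => (hcon k).le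
  rw [ENNReal.tsum_const_eq_top_of_ne_zero hε] at h2
  exact (measure_lt_top μ univ).ne (top_le_iff.mp (h2.trans h1))

end Pool.Agent.Lib.A54
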