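import Mathlib

/-!
Definitions for the full answer of MP_a54a32_lc.
-/

namespace Pool.Agent.Lib.A54

open MeasureTheory Set Filter
open scoped ENNReal Topology

/-- Cantor space. -/
abbrev Can : Type := ℕ → Bool

/-- Level sets: sets that depend on finitely many coordinates only. -/
def IsLevel (S : Set Can) : Prop := ∃ h : ℕ, ∀ z w : Can, (∀ i < h, z i = w i) → z ∈ S → w ∈ S

/-- The set coded by `z` at `n`: union of the basic sets `B b` with `z (n, b) = true`. -/
def W {α : Type*} (B : ℕ → Set α) (z : Can) (n : ℕ) : Set α :=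
  {y | ∃ b, z (Nat.pair n b) = true ∧ y ∈ B b}

section defs
variable {α : Type*} [MeasurableSpace α] (μ : Measure α)

/-- `c` is nowhere measurable on `P`. -/
def NB (P : Set α) (c : α → Can) : Prop :=
  ∀ β : α → Can, Measurable β → μ {x | x ∈ P ∧ c x = β x} = 0

/-- The pair `(a, b)` is nowhere measurable on `P`. -/
def PNB (P : Set α) (a b : α → Can) : Prop :=
  ∀ β γ : α → Can, Measurable β → Measurable γ → μ {x | x ∈ P ∧ a x = β x ∧ b x = γ x} = 0

/-- The points of `X` all of whose coordinates in the list `LL` belonging to the index `s` are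
in `S`. -/
def Suc {ι : Type*} (LL : List (ι × (α → Can))) (s : ι) (S : Set Can) (X : Set α) : Set α :=
  {x | x ∈ X ∧ ∀ p ∈ LL, p.1 = s → p.2 x ∈ S}

/-- Splitting of finitely many sets by one level set. -/
def HSpl {ι : Type*} (I : Finset ι) (LL : List (ι × (α → Can))) : Prop :=
  ∀ P : ι → Set α, (∀ p ∈ LL, NB μ (P p.1) p.2) → ∀ ε : ℝ≥0∞, ε ≠ 0 →
    ∃ S, IsLevel S ∧ ∀ s ∈ I, μ (P s) ≤ μ (Suc LL s S (P s)) + ε ∧
      μ (P s) ≤ μ (Suc LL s Sᶜ (P s)) + ε

/-- Splitting of finitely many sets into infinitely many pieces. -/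
def HInf {ι : Type*} (I : Finset ι) (LL : List (ι × (α → Can))) : Prop :=
  ∀ P : ι → Set α, (∀ p ∈ LL, NB μ (P p.1) p.2) → ∀ ε : ℝ≥0∞, ε ≠ 0 →
    ∃ T : ℕ → Set Can, (∀ k, IsLevel (T k)) ∧ Pairwise (Function.onFun Disjoint T) ∧
      ∀ k, ∀ s ∈ I, μ (P s) ≤ μ (Suc LL s (T k) (P s)) + ε

/-- The cut property of one set `D`. -/
def CE (F : α → Set α) (D : Set α) : Prop :=
  ∀ P : ℕ → Set α, ∃ Y ⊆ D, μ Y = μ D ∧ ∀ k, μ {x | x ∈ P k ∧ Disjoint (F x) Y} = μ (P k)

end defs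

end Pool.Agent.Lib.A54
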