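import Pool.Agent.Lib.A54.Defs

namespace Pool.Agent.Lib.A54

open MeasureTheory Set Cardinal

theorem exists_homogeneous {α : Type} [MeasurableSpace α] (μ : Measure α)
    (hsing : ∀ x, μ {x} = 0) {D : Set α} (hD : μ D ≠ 0) :
    ∃ D₁ ⊆ D, μ D₁ ≠ 0 ∧ ∃ (K : Type) (_ : LinearOrder K) (ρ : α → K),
      (∀ ξ, μ {y | y ∈ D₁ ∧ ρ y ≤ ξ} = 0) ∧
      ∀ (ξ : K) (N : K → Set α), (∀ η ≤ ξ, μ (N η) = 0) →
        μ {y | y ∈ D₁ ∧ ∃ η ≤ ξ, y ∈ N η} = 0 := by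
  classical
  let S : Set Cardinal.{0} := {κ | ∃ ι : Type, #ι = κ ∧ ∃ N : ι → Set α, (∀ i, μ (N i) = 0) ∧
    μ (D ∩ ⋃ i, N i) ≠ 0}
  have hSne : S.Nonempty := by
    refine ⟨#α, α, rfl, fun x => {x}, hsing, ?_⟩
    rwa [iUnion_of_singleton, inter_univ]
  obtain ⟨ι, hι, N, hN, hN0⟩ : sInf S ∈ S := csInf_mem hSne
  obtain ⟨ho, hwf, hord⟩ := exists_ord_eq_type_lt ι
  have hsmall : ∀ (i : ι) (N' : Iio i → Set α), (∀ j, μ (N' j) = 0) →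
      μ (D ∩ ⋃ j, N' j) = 0 := by
    intro i N' hN'
    by_contra hne
    have h1 : #(Iio i) ∈ S := ⟨Iio i, rfl, N', hN', hne⟩
    have h2 : #(Iio i) < #ι := mk_Iio_lt i hord
    rw [hι] at h2
    exact absurd (csInf_le' h1) (not_le.2 h2)
  obtain ⟨y0, hy0⟩ := nonempty_of_measure_ne_zero hN0
  obtain ⟨i0, -⟩ := mem_iUnion.1 hy0.2
  have H2 : ∀ (ξ : ι) (N' : ι → Set α), (∀ η ≤ ξ, μ (N' η) = 0) →
        μ {y | y ∈ D ∩ ⋃ i, N i ∧ ∃ η ≤ ξ, y ∈ N' η} = 0 := by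
    intro ξ N' hN'
    have h1 := hsmall ξ (fun j => N' j.1) (fun j => hN' j.1 (le_of_lt j.2))
    refine measure_mono_null ?_ (measure_union_null h1 (hN' ξ le_rfl))
    rintro y ⟨hy, η, hη, hyη⟩
    rcases hη.lt_or_eq with h | h
    · exact Or.inl ⟨hy.1, mem_iUnion.2 ⟨⟨η, h⟩, hyη⟩⟩
    · subst h
      exact Or.inr hyη
  let ρ : α → ι := fun y => if h : ∃ i, y ∈ N i then (wellFounded_lt (α := ι)).min {i | y ∈ N i} h
    else i0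
  refine ⟨D ∩ ⋃ i, N i, inter_subset_left, hN0, ι, ho, ρ, fun ξ => ?_, H2⟩
  refine measure_mono_null ?_ (H2 ξ N fun η _ => hN η)
  rintro y ⟨hy, hρ⟩
  refine ⟨hy, ρ y, hρ, ?_⟩
  have hex : ∃ i, y ∈ N i := mem_iUnion.1 hy.2
  have h1 : ρ y = (wellFounded_lt (α := ι)).min {i | y ∈ N i} hex := dif_pos hex
  rw [h1]
  exact (wellFounded_lt (α := ι)).min_mem {i | y ∈ N i} hex

end Pool.Agent.Lib.A54
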