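import Pool.Agent.Lib.A54.Glue
import Pool.Agent.Lib.A54.Homog
import Pool.Agent.Lib.A54.CEHom
import Pool.Agent.Lib.MP_a54a32_lc.Exact

/-!
The general theorem: free sets of full outer measure, for finite measures on a Polish group and for
Lebesgue measure on a finite dimensional space.
-/

namespace Pool.Agent.Lib.A54

open MeasureTheory Set Filter
open scoped ENNReal Topology

/-- Free sets of full outer measure for a finite measure. -/
theorem free_full {α : Type} [TopologicalSpace α] [SecondCountableTopology α]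
    [MeasurableSpace α] [BorelSpace α] [AddGroup α] [MeasurableAdd₂ α] [MeasurableNeg α]
    (φ : α ≃ᵐ Can) (μ : Measure α) [IsFiniteMeasure μ] [μ.OuterRegular]
    (hsing : ∀ x, μ {x} = 0)
    (htr : ∀ (a : α) (N : Set α), μ N = 0 → μ {v | v + a ∈ N} = 0)
    (F : α → Set α) (hF : ∀ x, (F x).Finite) (c : α → ℕ) (hc : ∀ x, ∀ y ∈ F x, c y < c x)
    (A : Set α) : ∃ B ⊆ A, (∀ x ∈ B, ∀ y ∈ F x, y ∉ B) ∧ μ B = μ A := by
  refine free_of_CE μ F (fun D => CE.of_local μ hF (fun D hD => ?_) D) c hc A
  obtain ⟨D₁, h1, h2, K, _, ρ, h3, h4⟩ := exists_homogeneous μ hsing hD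
  exact ⟨D₁, h1, h2, ce_homogeneous φ μ htr F hF D₁ h2 ρ h3 h4⟩

/-- the same for Lebesgue measure on a finite dimensional space. -/
theorem free_volume {E : Type} [NormedAddCommGroup E] [InnerProductSpace ℝ E]
    [FiniteDimensional ℝ E] [Nontrivial E] [MeasurableSpace E] [BorelSpace E]
    (F : E → Set E) (hF : ∀ x, (F x).Finite) (c : E → ℕ) (hc : ∀ x, ∀ y ∈ F x, c y < c x)
    (A : Set E) : ∃ B ⊆ A, (∀ x ∈ B, ∀ y ∈ F x, y ∉ B) ∧ volume B = volume A := by
  have : ProperSpace E := FiniteDimensional.proper_real E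
  have : SecondCountableTopology E := secondCountable_of_proper
  have : CompleteSpace E := FiniteDimensional.complete ℝ E
  have hunc : ¬ Countable E := by
    intro h
    have h1 := continuum_le_cardinal_of_module ℝ E
    have h2 : Cardinal.mk E ≤ Cardinal.aleph0 := Cardinal.mk_le_aleph0
    exact absurd (h1.trans h2) (not_le.2 Cardinal.aleph0_lt_continuum)
  let φ : E ≃ᵐ Can := PolishSpace.measurableEquivNatBoolOfNotCountable hunc
  obtain ⟨B, hBA, hfree, hB⟩ := free_full φ (volume : Measure E).toFinite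
    (fun x => toFinite_absolutelyContinuous _ (measure_singleton x)) (by
      intro a N hN
      have h1 : (volume : Measure E) N = 0 := absolutelyContinuous_toFinite _ hN
      apply toFinite_absolutelyContinuous
      have h2 : {v : E | v + a ∈ N} = (fun v => v + a) ⁻¹' N := rfl
      rw [h2, measure_preimage_add_right, h1]) F hF c hc A
  exact ⟨B, hBA, hfree, Pool.Agent.Lib.MP_a54a32_lc.full_transfer _ hBA hB⟩

end Pool.Agent.Lib.A54
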