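import Pool.Agent.Lib.A54.Defs
import Pool.Agent.Lib.MP_a54a32_lc.Split

/-!
Gluing of the cut property, local to global, and free sets of full outer measure.
-/

namespace Pool.Agent.Lib.A54

open MeasureTheory Set Filter
open scoped ENNReal Topology

section
variable {α : Type*} [MeasurableSpace α] (μ : Measure α)

/-- The cut property passes from a full subset to the set. -/
theorem CE.of_full {F : α → Set α} {D D' : Set α} (hD : CE μ F D') (hsub : D' ⊆ D)
    (hfull : μ D' = μ D) : CE μ F D := by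
  intro P
  obtain ⟨Y, hY, hY1, hY2⟩ := hD P
  exact ⟨Y, hY.trans hsub, hY1.trans hfull, hY2⟩

theorem CE.empty (F : α → Set α) : CE μ F ∅ := by
  intro P
  refine ⟨∅, subset_rfl, rfl, fun k => ?_⟩
  congr 1
  ext x
  simp

/-- The cut property passes to relatively measurable subsets. -/
theorem CE.inter [IsFiniteMeasure μ] {F : α → Set α} {D : Set α} (hD : CE μ F D) {E : Set α}
    (hE : MeasurableSet E) : CE μ F (D ∩ E) := by
  intro P
  obtain ⟨Y, hY, hY1, hY2⟩ := hD P
  refine ⟨Y ∩ E, inter_subset_inter_left _ hY, ?_, fun k => ?_⟩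
  · exact Measure.measure_inter_eq_of_measure_eq (μ := μ) hE hY1 hY (measure_ne_top _ _)
  · apply le_antisymm
    · exact measure_mono fun x hx => hx.1
    · rw [← hY2 k]
      apply measure_mono
      rintro x ⟨hx1, hx2⟩
      exact ⟨hx1, hx2.mono_right inter_subset_left⟩

theorem CE.iUnion [IsFiniteMeasure μ] {F : α → Set α} (hF : ∀ x, (F x).Finite) {D : ℕ → Set α}
    (hD : ∀ n, CE μ F (D n)) (hd : Pairwise (Function.onFun Disjoint D)) :
    CE μ F (⋃ n, D n) := by
  intro P
  choose Y hY1 hY2 hY3 using hD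
  -- the sets that do not meet `D n` for `n ≥ N`
  let P' : ℕ → Set α := fun j =>
    {x | x ∈ P j.unpair.1 ∧ ∀ n, j.unpair.2 ≤ n → Disjoint (F x) (D n)}
  let Q : ℕ → (ℕ → Set α) := fun n => Nat.rec P'
    (fun n Q => fun j => {x | x ∈ Q j ∧ Disjoint (F x) (Y n Q)}) n
  have hQ : ∀ n j, Q (n + 1) j = {x | x ∈ Q n j ∧ Disjoint (F x) (Y n (Q n))} := fun n j => rfl
  have hQanti : ∀ j, Antitone fun n => Q n j := by
    intro j
    apply antitone_nat_of_succ_le
    intro n
    change Q (n + 1) j ⊆ Q n j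
    rw [hQ]
    exact fun x hx => hx.1
  have hfull : ∀ j n, μ (Q n j) = μ (P' j) := by
    intro j n
    induction n with
    | zero => rfl
    | succ n ih => rw [← ih, hQ]; exact hY3 n (Q n) j
  have hdis : ∀ j, ∀ x ∈ Q j.unpair.2 j, ∀ n, Disjoint (F x) (Y n (Q n)) := by
    intro j x hx n
    rcases le_or_gt j.unpair.2 n with h | h
    · have hx0 : x ∈ P' j := hQanti j (Nat.zero_le _) hx
      exact (hx0.2 n h).mono_right (hY1 n _)
    · have hx1 : x ∈ Q (n + 1) j := hQanti j (Nat.succ_le_of_lt h) hx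
      rw [hQ] at hx1
      exact hx1.2
  refine ⟨⋃ n, Y n (Q n), iUnion_mono fun n => hY1 n _, ?_, fun k => ?_⟩
  · exact measure_iUnion_congr_of_subset (fun n => hY1 n _) (fun n => (hY2 n _).ge)
  · have hPk : P k = ⋃ N, P' (Nat.pair k N) := by
      ext x
      simp only [P', mem_iUnion, mem_ofPred_eq, Nat.unpair_pair]
      constructor
      · intro hx
        have hfin : {n | ¬ Disjoint (F x) (D n)}.Finite := by
          have hg : ∀ n, ¬ Disjoint (F x) (D n) → ∃ y, y ∈ F x ∧ y ∈ D n := fun n hn =>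
            not_disjoint_iff.1 hn
          have hne0 : Nonempty α := ⟨x⟩
          choose! g hgF hgD using hg
          refine Set.Finite.of_injOn (f := g) (t := F x) (fun n hn => hgF n hn) ?_ (hF x)
          intro i hi j hj hij
          by_contra hne
          have h1 := hgD i hi
          have h2 := hgD j hj
          rw [← hij] at h2
          exact disjoint_left.1 (hd hne) h1 h2
        obtain ⟨N, hN⟩ := hfin.bddAbove
        refine ⟨N + 1, hx, fun n hn => ?_⟩
        by_contra hcon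
        have := hN hcon
        omega
      · rintro ⟨N, hx, -⟩
        exact hx
    apply le_antisymm
    · exact measure_mono fun x hx => hx.1
    · have h1 : μ (⋃ N, Q (Nat.pair k N).unpair.2 (Nat.pair k N)) =
          μ (⋃ N, P' (Nat.pair k N)) :=
        measure_iUnion_congr_of_subset (fun N => hQanti _ (Nat.zero_le _))
          (fun N => (hfull _ _).ge)
      rw [hPk, ← h1, ← hPk]
      apply measure_mono
      apply iUnion_subset
      intro N x hx
      refine ⟨?_, ?_⟩
      · have hx0 : x ∈ P' (Nat.pair k N) := hQanti _ (Nat.zero_le _) hx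
        have := hx0.1
        rwa [Nat.unpair_pair] at this
      · rw [disjoint_iUnion_right]
        exact fun n => hdis _ x hx n

/-- Local to global. -/
theorem CE.of_local [IsFiniteMeasure μ] {F : α → Set α} (hF : ∀ x, (F x).Finite)
    (h : ∀ D, μ D ≠ 0 → ∃ D₁ ⊆ D, μ D₁ ≠ 0 ∧ CE μ F D₁) (D : Set α) : CE μ F D := by
  obtain ⟨G, ⟨hGm, hG⟩, hG0⟩ := MP_a54a32_lc.exhaustion μ (measure_ne_top μ D)
    (fun E => MeasurableSet E ∧ CE μ F (D ∩ E)) (fun E hE => hE.1)
    ⟨MeasurableSet.empty, by rw [inter_empty]; exact CE.empty μ F⟩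
    (by
      rintro E E' ⟨hEm, hE⟩ hE'm hE'E
      refine ⟨hE'm, ?_⟩
      have h1 := hE.inter μ hE'm
      rwa [inter_assoc, inter_eq_self_of_subset_right hE'E] at h1)
    (by
      rintro E hE hdisj
      refine ⟨MeasurableSet.iUnion fun n => (hE n).1, ?_⟩
      rw [inter_iUnion]
      exact CE.iUnion μ hF (fun n => (hE n).2) fun i j hij =>
        (hdisj hij).mono inter_subset_right inter_subset_right)
    (by
      intro G hGm hG0
      obtain ⟨D₁, hD₁, hD₁0, hCE⟩ := h _ hG0
      have hsub : D₁ ⊆ D ∩ (toMeasurable μ D₁ \ G) := fun x hx =>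
        ⟨(hD₁ hx).1, subset_toMeasurable _ _ hx, (hD₁ hx).2⟩
      refine ⟨toMeasurable μ D₁ \ G, ⟨(measurableSet_toMeasurable _ _).diff hGm, ?_⟩, ?_⟩
      · refine hCE.of_full μ hsub (le_antisymm (measure_mono hsub) ?_)
        exact (measure_mono (inter_subset_right.trans sdiff_subset)).trans
          (measure_toMeasurable _).le
      · intro h0
        refine hD₁0 (measure_mono_null ?_ h0)
        exact fun x hx => ⟨hD₁ hx, (hsub hx).2⟩)
  refine hG.of_full μ inter_subset_left ?_
  have h1 := measure_inter_add_sdiff (μ := μ) D hGm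
  rw [hG0, add_zero] at h1
  exact h1

/-- Free sets from the cut property. -/
theorem free_of_CE (F : α → Set α) (h : ∀ D, CE μ F D) (c : α → ℕ)
    (hc : ∀ x, ∀ y ∈ F x, c y < c x) (A : Set α) :
    ∃ B ⊆ A, (∀ x ∈ B, ∀ y ∈ F x, y ∉ B) ∧ μ B = μ A := by
  have step : ∀ (n : ℕ) (R : {R : Set α // R ⊆ A}), ∃ Y ⊆ {x | x ∈ R.1 ∧ c x = n},
      μ Y = μ {x | x ∈ R.1 ∧ c x = n} ∧
      ∀ k, μ {x | x ∈ {x | x ∈ R.1 ∧ c x = k} ∧ Disjoint (F x) Y} =
        μ {x | x ∈ R.1 ∧ c x = k} := by
    intro n R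
    exact h {x | x ∈ R.1 ∧ c x = n} (fun k => {x | x ∈ R.1 ∧ c x = k})
  choose Y hY1 hY2 hY3 using step
  let R : ℕ → {R : Set α // R ⊆ A} := fun n => Nat.rec ⟨A, subset_rfl⟩
    (fun n R => ⟨{x | x ∈ R.1 ∧ Disjoint (F x) (Y n R)}, fun x hx => R.2 hx.1⟩) n
  have hR : ∀ n, (R (n + 1)).1 = {x | x ∈ (R n).1 ∧ Disjoint (F x) (Y n (R n))} := fun n => rfl
  have hRanti : Antitone fun n => (R n).1 := by
    apply antitone_nat_of_succ_le
    intro n
    change (R (n + 1)).1 ⊆ (R n).1
    rw [hR]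
    exact fun x hx => hx.1
  have hfull : ∀ k n, μ {x | x ∈ (R n).1 ∧ c x = k} = μ {x | x ∈ A ∧ c x = k} := by
    intro k n
    induction n with
    | zero => rfl
    | succ n ih =>
      rw [← ih, ← hY3 n (R n) k, hR]
      congr 1
      ext x
      simp only [mem_ofPred_eq]
      tauto
  refine ⟨⋃ n, Y n (R n), ?_, ?_, ?_⟩
  · exact iUnion_subset fun n x hx => (R n).2 (hY1 n (R n) hx).1
  · intro x hx y hy hyB
    obtain ⟨m, hm⟩ := mem_iUnion.1 hx
    obtain ⟨n, hn⟩ := mem_iUnion.1 hyB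
    have h1 := hY1 m (R m) hm
    have h2 := hY1 n (R n) hn
    have h3 : n < m := by
      have := hc x y hy
      rw [h1.2, h2.2] at this
      exact this
    have h4 : x ∈ (R (n + 1)).1 := hRanti (Nat.succ_le_of_lt h3) h1.1
    rw [hR] at h4
    exact disjoint_left.1 h4.2 hy hn
  · have hA : A = ⋃ n, {x | x ∈ A ∧ c x = n} := by
      ext x
      simp only [mem_iUnion, mem_ofPred_eq]
      exact ⟨fun hx => ⟨c x, hx, rfl⟩, fun ⟨_, hx, _⟩ => hx⟩
    conv_rhs => rw [hA]
    refine measure_iUnion_congr_of_subset ?_ ?_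
    · intro n x hx
      exact ⟨(R n).2 (hY1 n (R n) hx).1, (hY1 n (R n) hx).2⟩
    · intro n
      rw [hY2 n (R n), hfull n n]

end

end Pool.Agent.Lib.A54
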