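import Pool.Agent.Lib.A54.Defs

/-!
Nonsingular reduction (row H of the full answer of MP_a54a32_lc).
-/

namespace Pool.Agent.Lib.A54

open MeasureTheory Set Filter
open scoped ENNReal Topology

/-- A monotone function on a family of sets closed under countable unions attains its maximum. -/
theorem exists_max_family {β : Type*} (𝒞 : Set (Set β)) (hne : 𝒞.Nonempty)
    (hun : ∀ C : ℕ → Set β, (∀ n, C n ∈ 𝒞) → (⋃ n, C n) ∈ 𝒞) (m : Set β → ℝ≥0∞)
    (hm : Monotone m) : ∃ C ∈ 𝒞, ∀ C' ∈ 𝒞, m C' ≤ m C := by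
  have hSne : (m '' 𝒞).Nonempty := hne.image m
  obtain ⟨u, -, hu, huS⟩ := exists_seq_tendsto_sSup hSne (OrderTop.bddAbove _)
  choose C hC hCu using huS
  refine ⟨⋃ n, C n, hun C hC, fun C' hC' => ?_⟩
  refine (le_sSup (mem_image_of_mem m hC')).trans ?_
  refine le_of_tendsto' hu (fun n => ?_)
  rw [← hCu n]
  exact hm (subset_iUnion C n)

section
variable {α : Type*} [MeasurableSpace α] (μ : Measure α) [IsFiniteMeasure μ]

theorem nonsingular_aux (F : α → Set α) (hF : ∀ x, (F x).Finite) (D : Set α) (m : ℕ) :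
    ∀ (P Z₀ : Set α), Z₀ ⊆ D → μ Z₀ = 0 → (∀ x ∈ P, (F x ∩ (D \ Z₀)).ncard ≤ m) →
      ∃ Z ⊆ D, Z₀ ⊆ Z ∧ μ Z = 0 ∧ ∃ P' ⊆ P, μ P' = μ P ∧
        ∀ Z' ⊆ D \ Z, μ Z' = 0 → μ {x | x ∈ P' ∧ ¬ Disjoint (F x) Z'} = 0 := by
  induction m with
  | zero =>
    intro P Z₀ hZ₀ hμ hcard
    refine ⟨Z₀, hZ₀, subset_rfl, hμ, P, subset_rfl, rfl, fun Z' hZ' _ => ?_⟩
    have : {x | x ∈ P ∧ ¬ Disjoint (F x) Z'} = ∅ := by
      rw [eq_empty_iff_forall_notMem]
      rintro x ⟨hx, hdis⟩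
      apply hdis
      have h0 : F x ∩ (D \ Z₀) = ∅ :=
        (ncard_eq_zero ((hF x).inter_of_left _)).1 (Nat.le_zero.1 (hcard x hx))
      rw [disjoint_iff_inter_eq_empty]
      exact subset_empty_iff.1 (h0 ▸ inter_subset_inter_right _ hZ')
    rw [this, measure_empty]
  | succ m ih =>
    intro P Z₀ hZ₀ hμ hcard
    obtain ⟨Z₁, ⟨h01, h1D, h1μ⟩, hmax⟩ := exists_max_family
      {Z : Set α | Z₀ ⊆ Z ∧ Z ⊆ D ∧ μ Z = 0} ⟨Z₀, subset_rfl, hZ₀, hμ⟩
      (fun C hC => ⟨(hC 0).1.trans (subset_iUnion C 0), iUnion_subset fun n => (hC n).2.1,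
        measure_iUnion_null fun n => (hC n).2.2⟩)
      (fun Z => μ {x | x ∈ P ∧ ¬ Disjoint (F x) (Z \ Z₀)})
      (fun Z Z' hZZ' => measure_mono fun x hx =>
        ⟨hx.1, fun hd => hx.2 (hd.mono_right (sdiff_subset_sdiff_left hZZ'))⟩)
    set P₁ := {x | x ∈ P ∧ ¬ Disjoint (F x) (Z₁ \ Z₀)} with hP₁
    have hP₁P : P₁ ⊆ P := fun x hx => hx.1
    set E := toMeasurable μ P₁ with hE
    have hEm : MeasurableSet E := measurableSet_toMeasurable _ _
    have hP₁E : P₁ ⊆ E := subset_toMeasurable _ _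
    have hμE : μ E = μ P₁ := measure_toMeasurable _
    obtain ⟨Z, hZD, h1Z, hZμ, P₁', hP₁'sub, hP₁'μ, hns⟩ := ih P₁ Z₁ h1D h1μ (by
      rintro x ⟨hxP, hxd⟩
      have hlt : (F x ∩ (D \ Z₁)).ncard < (F x ∩ (D \ Z₀)).ncard := by
        apply ncard_lt_ncard _ ((hF x).inter_of_left _)
        obtain ⟨y, hyF, hyZ⟩ := not_disjoint_iff.1 hxd
        refine ssubset_iff_exists.2 ⟨inter_subset_inter_right _ (sdiff_subset_sdiff_right h01),
          y, ⟨hyF, h1D hyZ.1, hyZ.2⟩, fun hy => hy.2.2 hyZ.1⟩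
      have := hcard x hxP
      omega)
    refine ⟨Z, hZD, h01.trans h1Z, hZμ, P₁' ∪ (P \ E), union_subset (hP₁'sub.trans hP₁P)
      sdiff_subset, ?_, ?_⟩
    · apply le_antisymm (measure_mono (union_subset (hP₁'sub.trans hP₁P) sdiff_subset))
      have h1 : μ P = μ (P ∩ E) + μ (P \ E) := (measure_inter_add_sdiff P hEm).symm
      have h2 : μ (P₁' ∪ (P \ E)) = μ P₁' + μ (P \ E) := by
        rw [← measure_inter_add_sdiff (P₁' ∪ (P \ E)) hEm]
        congr 2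
        · ext x
          simp only [mem_inter_iff, mem_union, Set.mem_sdiff]
          constructor
          · rintro ⟨h | h, h'⟩
            · exact h
            · exact absurd h' h.2
          · exact fun h => ⟨Or.inl h, hP₁E (hP₁'sub h)⟩
        · ext x
          simp only [mem_union, Set.mem_sdiff]
          constructor
          · rintro ⟨h | h, h'⟩
            · exact absurd (hP₁E (hP₁'sub h)) h'
            · exact h
          · exact fun h => ⟨Or.inr h, h.2⟩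
      rw [h1, h2, hP₁'μ, ← hμE]
      gcongr
      exact inter_subset_right
    · intro Z' hZ' hμZ'
      set Q := {x | x ∈ P \ E ∧ ¬ Disjoint (F x) Z'} with hQ
      have hsub : {x | x ∈ P₁' ∪ (P \ E) ∧ ¬ Disjoint (F x) Z'} ⊆
          {x | x ∈ P₁' ∧ ¬ Disjoint (F x) Z'} ∪ Q := by
        rintro x ⟨h | h, h'⟩
        · exact Or.inl ⟨h, h'⟩
        · exact Or.inr ⟨h, h'⟩
      have hQ0 : μ Q = 0 := by
        have hle : μ {x | x ∈ P ∧ ¬ Disjoint (F x) ((Z₁ ∪ Z') \ Z₀)} ≤ μ P₁ :=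
          hmax (Z₁ ∪ Z') ⟨h01.trans subset_union_left,
            union_subset h1D (hZ'.trans sdiff_subset), by
              rw [← nonpos_iff_eq_zero]
              exact (measure_union_le _ _).trans (by rw [h1μ, hμZ']; simp)⟩
        have hsub2 : P₁ ∪ Q ⊆ {x | x ∈ P ∧ ¬ Disjoint (F x) ((Z₁ ∪ Z') \ Z₀)} := by
          rintro x (h | h)
          · refine ⟨h.1, fun hd => h.2 (hd.mono_right ?_)⟩
            exact sdiff_subset_sdiff_left subset_union_left
          · refine ⟨h.1.1, fun hd => h.2 (hd.mono_right ?_)⟩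
            exact fun y hy => ⟨Or.inr hy, fun hy0 => (hZ' hy).2 (h1Z (h01 hy0))⟩
        have hadd : μ (P₁ ∪ Q) = μ P₁ + μ Q := by
          rw [← measure_inter_add_sdiff (P₁ ∪ Q) hEm]
          congr 2
          · ext x
            simp only [mem_inter_iff, mem_union]
            constructor
            · rintro ⟨h | h, h'⟩
              · exact h
              · exact absurd h' h.1.2
            · exact fun h => ⟨Or.inl h, hP₁E h⟩
          · ext x
            simp only [mem_union, Set.mem_sdiff]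
            constructor
            · rintro ⟨h | h, h'⟩
              · exact absurd (hP₁E h) h'
              · exact h
            · exact fun h => ⟨Or.inr h, h.1.2⟩
        have hfin : μ P₁ ≠ ∞ := measure_ne_top μ _
        have hle2 : μ P₁ + μ Q ≤ μ P₁ + 0 := by
          rw [add_zero, ← hadd]
          exact (measure_mono hsub2).trans hle
        exact le_antisymm ((ENNReal.add_le_add_iff_left hfin).1 hle2) bot_le
      refine measure_mono_null hsub ?_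
      exact measure_union_null (hns Z' hZ' hμZ') hQ0

theorem nonsingular (F : α → Set α) (hF : ∀ x, (F x).Finite) (D : Set α) (P : ℕ → Set α) :
    ∃ Z ⊆ D, μ Z = 0 ∧ ∃ P' : ℕ → Set α, (∀ k, P' k ⊆ P k ∧ μ (P' k) = μ (P k)) ∧
      ∀ k, ∀ Z' ⊆ D \ Z, μ Z' = 0 → μ {x | x ∈ P' k ∧ ¬ Disjoint (F x) Z'} = 0 := by
  have key : ∀ k m : ℕ, ∃ Z ⊆ D, μ Z = 0 ∧ ∃ P' ⊆ {x | x ∈ P k ∧ (F x ∩ D).ncard ≤ m},
      μ P' = μ {x | x ∈ P k ∧ (F x ∩ D).ncard ≤ m} ∧
        ∀ Z' ⊆ D \ Z, μ Z' = 0 → μ {x | x ∈ P' ∧ ¬ Disjoint (F x) Z'} = 0 := by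
    intro k m
    obtain ⟨Z, hZD, -, hZμ, P', hP', hP'μ, h⟩ := nonsingular_aux μ F hF D m
      {x | x ∈ P k ∧ (F x ∩ D).ncard ≤ m} ∅ (empty_subset _) measure_empty
      (fun x hx => by rw [sdiff_empty]; exact hx.2)
    exact ⟨Z, hZD, hZμ, P', hP', hP'μ, h⟩
  choose Z hZD hZμ P' hP' hP'μ h using key
  refine ⟨⋃ k, ⋃ m, Z k m, iUnion_subset fun k => iUnion_subset fun m => hZD k m,
    measure_iUnion_null fun k => measure_iUnion_null fun m => hZμ k m,
    fun k => ⋃ m, P' k m, fun k => ⟨iUnion_subset fun m => (hP' k m).trans fun x hx => hx.1, ?_⟩,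
    ?_⟩
  · have h1 : μ (⋃ m, P' k m) = μ (⋃ m, {x | x ∈ P k ∧ (F x ∩ D).ncard ≤ m}) :=
      measure_iUnion_congr_of_subset (fun m => hP' k m) (fun m => (hP'μ k m).ge)
    rw [h1]
    congr 1
    ext x
    simp only [mem_iUnion, Set.mem_ofPred_eq]
    exact ⟨fun ⟨m, hm⟩ => hm.1, fun hx => ⟨_, hx, le_rfl⟩⟩
  · intro k Z' hZ' hμZ'
    have hsub : {x | x ∈ ⋃ m, P' k m ∧ ¬ Disjoint (F x) Z'} ⊆
        ⋃ m, {x | x ∈ P' k m ∧ ¬ Disjoint (F x) Z'} := by
      rintro x ⟨hx, hd⟩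
      obtain ⟨m, hm⟩ := mem_iUnion.1 hx
      exact mem_iUnion.2 ⟨m, hm, hd⟩
    refine measure_mono_null hsub (measure_iUnion_null fun m => ?_)
    refine h k m Z' (fun y hy => ⟨(hZ' hy).1, fun hyZ => (hZ' hy).2 ?_⟩) hμZ'
    exact mem_iUnion.2 ⟨k, mem_iUnion.2 ⟨m, hyZ⟩⟩

end

end Pool.Agent.Lib.A54
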