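import Pool.Agent.Lib.MP_a54a32_lc.Plane

/-!
The rational-distance graph in dimension at most two: two distinct points have only countably many
common neighbours.
-/

namespace Pool.Agent.Lib.A54

open Set Pool.Agent.Lib.MP_a54a32_lc

/-- Distinct points at rational distance, in a metric space. -/
def RatDist {E : Type*} [MetricSpace E] (x y : E) : Prop := x ≠ y ∧ ∃ q : ℚ, dist x y = (q : ℝ)

theorem ratDist_symm {E : Type*} [MetricSpace E] (x y : E) (h : RatDist x y) : RatDist y x :=
  ⟨h.1.symm, by obtain ⟨q, hq⟩ := h.2; exact ⟨q, by rw [dist_comm, hq]⟩⟩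

theorem countable_common_of_isometry {E : Type*} [MetricSpace E]
    (f : E → EuclideanSpace ℝ (Fin 2)) (hf : Isometry f) (a b : E) (hab : a ≠ b) :
    {x | RatDist x a ∧ RatDist x b}.Countable := by
  refine ((countable_common (f a) (f b) (hf.injective.ne hab)).preimage_of_injOn
    (f := f) hf.injective.injOn).mono ?_
  rintro x ⟨⟨h1, q, hq⟩, ⟨h2, q', hq'⟩⟩
  refine ⟨⟨hf.injective.ne h1, q, ?_⟩, ⟨hf.injective.ne h2, q', ?_⟩⟩
  · rw [hf.dist_eq]; exact hq
  · rw [hf.dist_eq]; exact hq'

/-- The isometric embedding of the line in the plane. -/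
theorem exists_isometry_one :
    ∃ f : EuclideanSpace ℝ (Fin 1) → EuclideanSpace ℝ (Fin 2), Isometry f := by
  refine ⟨fun x => !₂[x 0, 0], Isometry.of_dist_eq fun x y => ?_⟩
  rw [EuclideanSpace.dist_eq, EuclideanSpace.dist_eq]
  simp [Fin.sum_univ_two]

end Pool.Agent.Lib.A54
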