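import Pool.Agent.Lib.A54.Level
import Pool.Agent.Lib.A54.Avg

/-!
(5.1): a nowhere measurable map is split by a level set.
-/

namespace Pool.Agent.Lib.A54

open MeasureTheory Set Filter
open scoped ENNReal Topology

/-- Extension of a finite sequence by `false`. -/
def ex {k : ℕ} (τ : Fin k → Bool) : Can := fun i => if h : i < k then τ ⟨i, h⟩ else false

theorem ex_res {k : ℕ} (z : Can) {i : ℕ} (hi : i < k) : ex (res k z) i = z i := by
  simp [ex, res, hi]

theorem res_ex_res {h k : ℕ} (hk : h ≤ k) (z : Can) : res h (ex (res k z)) = res h z := by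
  funext i
  exact ex_res z (i.2.trans_le hk)

section
variable {α : Type*}

/-- The part of `P` on which `c` passes through `σ`. -/
def Pn (P : Set α) (c : α → Can) (h : ℕ) (σ : Fin h → Bool) : Set α :=
  {x | x ∈ P ∧ res h (c x) = σ}

variable [MeasurableSpace α] (μ : Measure α)

/-- Its measurable hull. -/
noncomputable def Hn (P : Set α) (c : α → Can) (h : ℕ) (σ : Fin h → Bool) : Set α :=
  toMeasurable μ (Pn P c h σ)

theorem measurableSet_Hn (P : Set α) (c : α → Can) (h : ℕ) (σ : Fin h → Bool) :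
    MeasurableSet (Hn μ P c h σ) := measurableSet_toMeasurable _ _

theorem Pn_subset_Hn (P : Set α) (c : α → Can) (h : ℕ) (σ : Fin h → Bool) :
    Pn P c h σ ⊆ Hn μ P c h σ := subset_toMeasurable _ _

/-- The points at which `σ` has at most one extension at every level. -/
def Sim (P : Set α) (c : α → Can) (h : ℕ) (σ : Fin h → Bool) : Set α :=
  {x | ∀ k, h ≤ k → ∀ τ τ' : Fin k → Bool, res h (ex τ) = σ → res h (ex τ') = σ →
    x ∈ Hn μ P c k τ → x ∈ Hn μ P c k τ' → τ = τ'}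

theorem measurableSet_Sim (P : Set α) (c : α → Can) (h : ℕ) (σ : Fin h → Bool) :
    MeasurableSet (Sim μ P c h σ) := by
  have e : Sim μ P c h σ = ⋂ k, ⋂ _ : h ≤ k, ⋂ τ : Fin k → Bool, ⋂ τ' : Fin k → Bool,
      ⋂ _ : res h (ex τ) = σ, ⋂ _ : res h (ex τ') = σ, ⋂ _ : τ ≠ τ',
        (Hn μ P c k τ ∩ Hn μ P c k τ')ᶜ := by
    ext x
    simp only [Sim, mem_ofPred_eq, mem_iInter, mem_compl_iff, mem_inter_iff, not_and]
    constructor
    · intro hx k hk τ τ' h1 h2 hne h3 h4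
      exact hne (hx k hk τ τ' h1 h2 h3 h4)
    · intro hx k hk τ τ' h1 h2 h3 h4
      by_contra hne
      exact hx k hk τ τ' h1 h2 hne h3 h4
  rw [e]
  refine MeasurableSet.iInter fun k => MeasurableSet.iInter fun _ => MeasurableSet.iInter fun τ =>
    MeasurableSet.iInter fun τ' => MeasurableSet.iInter fun _ => MeasurableSet.iInter fun _ =>
    MeasurableSet.iInter fun _ => ?_
  exact ((measurableSet_Hn μ P c k τ).inter (measurableSet_Hn μ P c k τ')).compl

theorem measure_Hn_Sim [IsFiniteMeasure μ] {P : Set α} {c : α → Can} (hNB : NB μ P c) (h : ℕ)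
    (σ : Fin h → Bool) : μ (Hn μ P c h σ ∩ Sim μ P c h σ) = 0 := by
  classical
  rw [Hn, Measure.measure_toMeasurable_inter (measurableSet_Sim μ P c h σ) (measure_ne_top _ _)]
  set U : ℕ → Set α := fun i => ⋃ k, ⋃ τ : Fin k → Bool,
    ⋃ _ : h ≤ k ∧ i < k ∧ res h (ex τ) = σ ∧ ex τ i = true, Hn μ P c k τ with hU
  have hUm : ∀ i, MeasurableSet (U i) := fun i => MeasurableSet.iUnion fun k =>
    MeasurableSet.iUnion fun τ => MeasurableSet.iUnion fun _ => measurableSet_Hn μ P c k τ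
  set β : α → Can := fun x i => if x ∈ U i then true else false with hβ
  have hβm : Measurable β := measurable_pi_lambda _ fun i =>
    Measurable.ite (hUm i) measurable_const measurable_const
  refine measure_mono_null ?_ (hNB β hβm)
  rintro x ⟨⟨hxP, hxσ⟩, hxS⟩
  refine ⟨hxP, funext fun i => ?_⟩
  have key : x ∈ U i ↔ c x i = true := by
    simp only [hU, mem_iUnion]
    constructor
    · rintro ⟨k, τ, ⟨hk, hi, h1, h2⟩, hxτ⟩
      have h3 : τ = res k (c x) := hxS k hk τ (res k (c x)) h1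
        ((res_ex_res hk (c x)).trans hxσ) hxτ (Pn_subset_Hn μ P c k _ ⟨hxP, rfl⟩)
      rw [h3, ex_res _ hi] at h2
      exact h2
    · intro hc
      refine ⟨max h (i + 1), res _ (c x), ⟨le_max_left _ _, ?_, ?_, ?_⟩, ?_⟩
      · exact (Nat.lt_succ_self i).trans_le (le_max_right _ _)
      · exact (res_ex_res (le_max_left _ _) (c x)).trans hxσ
      · rw [ex_res _ ((Nat.lt_succ_self i).trans_le (le_max_right _ _))]
        exact hc
      · exact Pn_subset_Hn μ P c _ _ ⟨hxP, rfl⟩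
  by_cases hc : c x i = true
  · rw [hc]
    simp only [hβ, if_pos (key.2 hc)]
  · have hc' : c x i = false := by simpa using hc
    rw [hc']
    simp only [hβ, if_neg (fun h => hc (key.1 h))]

/-- The points at which `σ` has no extension at level `k`. -/
def Dead (P : Set α) (c : α → Can) (h k : ℕ) (σ : Fin h → Bool) : Set α :=
  (⋃ τ : Fin k → Bool, ⋃ _ : res h (ex τ) = σ, Hn μ P c k τ)ᶜ

theorem measurableSet_Dead (P : Set α) (c : α → Can) (h k : ℕ) (σ : Fin h → Bool) :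
    MeasurableSet (Dead μ P c h k σ) :=
  (MeasurableSet.iUnion fun τ => MeasurableSet.iUnion fun _ => measurableSet_Hn μ P c k τ).compl

theorem measure_Hn_Dead [IsFiniteMeasure μ] (P : Set α) (c : α → Can) {h k : ℕ} (hk : h ≤ k)
    (σ : Fin h → Bool) : μ (Hn μ P c h σ ∩ Dead μ P c h k σ) = 0 := by
  rw [Hn, Measure.measure_toMeasurable_inter (measurableSet_Dead μ P c h k σ) (measure_ne_top _ _)]
  have e : Pn P c h σ ∩ Dead μ P c h k σ = ∅ := by
    rw [eq_empty_iff_forall_notMem]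
    rintro x ⟨⟨hxP, hxσ⟩, hxD⟩
    apply hxD
    simp only [mem_iUnion]
    exact ⟨res k (c x), (res_ex_res hk (c x)).trans hxσ, Pn_subset_Hn μ P c _ _ ⟨hxP, rfl⟩⟩
  rw [e, measure_empty]

/-- The null set to be discarded. -/
def Bad (P : Set α) (c : α → Can) : Set α :=
  ⋃ h, ⋃ σ : Fin h → Bool, ((Hn μ P c h σ ∩ Sim μ P c h σ) ∪
    ⋃ k, ⋃ _ : h ≤ k, (Hn μ P c h σ ∩ Dead μ P c h k σ))

theorem measurableSet_Bad (P : Set α) (c : α → Can) : MeasurableSet (Bad μ P c) :=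
  MeasurableSet.iUnion fun h => MeasurableSet.iUnion fun σ =>
    ((measurableSet_Hn μ P c h σ).inter (measurableSet_Sim μ P c h σ)).union
      (MeasurableSet.iUnion fun k => MeasurableSet.iUnion fun _ =>
        (measurableSet_Hn μ P c h σ).inter (measurableSet_Dead μ P c h k σ))

theorem measure_Bad [IsFiniteMeasure μ] {P : Set α} {c : α → Can} (hNB : NB μ P c) :
    μ (Bad μ P c) = 0 := by
  refine measure_iUnion_null fun h => measure_iUnion_null fun σ => ?_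
  refine measure_union_null (measure_Hn_Sim μ hNB h σ) ?_
  exact measure_iUnion_null fun k => measure_iUnion_null fun hk => measure_Hn_Dead μ P c hk σ

/-- The good set. -/
noncomputable def Gd (P : Set α) (c : α → Can) : Set α := toMeasurable μ P \ Bad μ P c

theorem measurableSet_Gd (P : Set α) (c : α → Can) : MeasurableSet (Gd μ P c) :=
  (measurableSet_toMeasurable _ _).diff (measurableSet_Bad μ P c)

theorem Gd_ext {P : Set α} {c : α → Can} {x : α} (hx : x ∈ Gd μ P c) {h k : ℕ} (hk : h ≤ k)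
    {σ : Fin h → Bool} (hσ : x ∈ Hn μ P c h σ) :
    ∃ τ : Fin k → Bool, res h (ex τ) = σ ∧ x ∈ Hn μ P c k τ := by
  by_contra hcon
  push Not at hcon
  apply hx.2
  simp only [Bad, mem_iUnion]
  refine ⟨h, σ, Or.inr ?_⟩
  simp only [mem_iUnion]
  refine ⟨k, hk, hσ, ?_⟩
  intro hmem
  simp only [mem_iUnion] at hmem
  obtain ⟨τ, h1, h2⟩ := hmem
  exact hcon τ h1 h2

theorem Gd_split {P : Set α} {c : α → Can} {x : α} (hx : x ∈ Gd μ P c) {h : ℕ}
    {σ : Fin h → Bool} (hσ : x ∈ Hn μ P c h σ) :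
    ∃ k, h ≤ k ∧ ∃ τ τ' : Fin k → Bool, res h (ex τ) = σ ∧ res h (ex τ') = σ ∧
      x ∈ Hn μ P c k τ ∧ x ∈ Hn μ P c k τ' ∧ τ ≠ τ' := by
  by_contra hcon
  push Not at hcon
  apply hx.2
  simp only [Bad, mem_iUnion]
  exact ⟨h, σ, Or.inl ⟨hσ, fun k hk τ τ' h1 h2 h3 h4 => hcon k hk τ τ' h1 h2 h3 h4⟩⟩

theorem card_mono {P : Set α} {c : α → Can} {x : α} (hx : x ∈ Gd μ P c) {h k : ℕ} (hk : h ≤ k) :
    (sig (Hn μ P c h) x).card ≤ (sig (Hn μ P c k) x).card := by
  classical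
  refine Finset.card_le_card_of_surjOn (fun τ => res h (ex τ)) ?_
  intro σ hσ
  obtain ⟨τ, h1, h2⟩ := Gd_ext μ hx hk (mem_sig.1 (Finset.mem_coe.1 hσ))
  exact ⟨τ, Finset.mem_coe.2 (mem_sig.2 h2), h1⟩

theorem sig_nonempty {P : Set α} {c : α → Can} {x : α} (hx : x ∈ Gd μ P c) (h : ℕ) :
    (sig (Hn μ P c h) x).Nonempty := by
  have h0 : x ∈ Hn μ P c 0 (res 0 (fun _ => false)) := by
    have e : Pn P c 0 (res 0 (fun _ => false)) = P := by
      ext y
      simp only [Pn, mem_ofPred_eq, and_iff_left_iff_imp]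
      intro _
      exact Subsingleton.elim _ _
    rw [Hn, e]
    exact hx.1
  obtain ⟨τ, _, h2⟩ := Gd_ext μ hx (Nat.zero_le h) h0
  exact ⟨τ, mem_sig.2 h2⟩

theorem card_strict {P : Set α} {c : α → Can} {x : α} (hx : x ∈ Gd μ P c) (h : ℕ) :
    ∃ k, h ≤ k ∧ (sig (Hn μ P c h) x).card < (sig (Hn μ P c k) x).card := by
  classical
  obtain ⟨σ, hσ⟩ := sig_nonempty μ hx h
  obtain ⟨k, hk, τ, τ', h1, h2, h3, h4, hne⟩ := Gd_split μ hx (mem_sig.1 hσ)
  refine ⟨k, hk, ?_⟩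
  have hsurj : (sig (Hn μ P c h) x).card ≤ ((sig (Hn μ P c k) x).erase τ').card := by
    refine Finset.card_le_card_of_surjOn (fun τ => res h (ex τ)) ?_
    intro σ' hσ'
    obtain ⟨ρ, hρ1, hρ2⟩ := Gd_ext μ hx hk (mem_sig.1 (Finset.mem_coe.1 hσ'))
    by_cases hρ : ρ = τ'
    · refine ⟨τ, Finset.mem_coe.2 (Finset.mem_erase.2 ⟨hne, mem_sig.2 h3⟩), ?_⟩
      change res h (ex τ) = σ'
      rw [h1, ← hρ1, hρ, h2]
    · exact ⟨ρ, Finset.mem_coe.2 (Finset.mem_erase.2 ⟨hρ, mem_sig.2 hρ2⟩), hρ1⟩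
  exact lt_of_le_of_lt hsurj (Finset.card_erase_lt_of_mem (mem_sig.2 h4))

theorem card_unbounded {P : Set α} {c : α → Can} {x : α} (hx : x ∈ Gd μ P c) (M : ℕ) :
    ∃ h, M ≤ (sig (Hn μ P c h) x).card := by
  induction M with
  | zero => exact ⟨0, Nat.zero_le _⟩
  | succ M ih =>
    obtain ⟨h, hh⟩ := ih
    obtain ⟨k, _, hk⟩ := card_strict μ hx h
    exact ⟨k, Nat.succ_le_of_lt (lt_of_le_of_lt hh hk)⟩

theorem exists_small [IsFiniteMeasure μ] (P : Set α) (c : α → Can) (M : ℕ) {δ : ℝ≥0∞}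
    (hδ : δ ≠ 0) : ∃ h, μ {x | x ∈ Gd μ P c ∧ (sig (Hn μ P c h) x).card < M} < δ := by
  set A : ℕ → Set α := fun h => {x | x ∈ Gd μ P c ∧ (sig (Hn μ P c h) x).card < M} with hA
  have hAm : ∀ h, MeasurableSet (A h) := fun h =>
    (measurableSet_Gd μ P c).inter (measurableSet_card_lt (measurableSet_Hn μ P c h) M)
  have hanti : Antitone A := fun h k hk x hx => ⟨hx.1, (card_mono μ hx.1 hk).trans_lt hx.2⟩
  have hempty : ⋂ h, A h = ∅ := by
    rw [eq_empty_iff_forall_notMem]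
    intro x hx
    rw [mem_iInter] at hx
    obtain ⟨h, hh⟩ := card_unbounded μ (hx 0).1 M
    exact absurd (hx h).2 (not_lt.2 hh)
  have ht := tendsto_measure_iInter_atTop (μ := μ) (fun h => (hAm h).nullMeasurableSet) hanti
    ⟨0, measure_ne_top _ _⟩
  rw [hempty, measure_empty] at ht
  obtain ⟨h, hh⟩ := (ht.eventually (gt_mem_nhds (pos_iff_ne_zero.2 hδ))).exists
  exact ⟨h, hh⟩

/-- (5.1). -/
theorem split1 [IsFiniteMeasure μ] {P : Set α} {c : α → Can} (h : NB μ P c) {ε : ℝ≥0∞}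
    (hε : ε ≠ 0) :
    ∃ S, IsLevel S ∧ μ P ≤ μ {x | x ∈ P ∧ c x ∈ S} + ε ∧ μ P ≤ μ {x | x ∈ P ∧ c x ∉ S} + ε := by
  -- choose `M`
  have hε4 : ε / 4 ≠ 0 := (ENNReal.div_pos hε (by finiteness)).ne'
  obtain ⟨M, hM⟩ : ∃ M : ℕ, μ (Gd μ P c) / 2 ^ M < ε / 4 := by
    have h1 : Tendsto (fun M : ℕ => μ (Gd μ P c) * (2⁻¹ : ℝ≥0∞) ^ M) atTop
        (𝓝 (μ (Gd μ P c) * 0)) :=
      ENNReal.Tendsto.const_mul (ENNReal.tendsto_pow_atTop_nhds_zero_of_lt_one
        (ENNReal.inv_lt_one.2 (by norm_num))) (Or.inr (measure_ne_top _ _))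
    rw [mul_zero] at h1
    obtain ⟨M, hM⟩ := (h1.eventually (gt_mem_nhds (pos_iff_ne_zero.2 hε4))).exists
    refine ⟨M, ?_⟩
    rw [div_eq_mul_inv, ENNReal.inv_pow]
    exact hM
  obtain ⟨n, hn⟩ := exists_small μ P c M hε4
  obtain ⟨u, hu⟩ := exists_good_split μ (measurableSet_Hn μ P c n) (measurableSet_Gd μ P c) M
  have hbound : 2 * (μ (Gd μ P c) / 2 ^ M +
      μ {x | x ∈ Gd μ P c ∧ (sig (Hn μ P c n) x).card < M}) ≤ ε := by
    calc 2 * (μ (Gd μ P c) / 2 ^ M + μ {x | x ∈ Gd μ P c ∧ (sig (Hn μ P c n) x).card < M})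
        ≤ 2 * (ε / 4 + ε / 4) := by gcongr
      _ = ε := by
        rw [← two_mul, ← mul_assoc]
        norm_num
        exact ENNReal.mul_div_cancel (by norm_num) (by norm_num)
  have main : ∀ v : Set (Fin n → Bool), μ (Gd μ P c \ ⋃ σ ∈ v, Hn μ P c n σ) ≤ ε →
      μ P ≤ μ {x | x ∈ P ∧ res n (c x) ∈ v} + ε := by
    intro v hv
    have e1 : ⋃ σ ∈ v, Pn P c n σ = {x | x ∈ P ∧ res n (c x) ∈ v} := by
      ext x
      simp only [Pn, mem_iUnion, mem_ofPred_eq, exists_prop]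
      constructor
      · rintro ⟨σ, hσ, hx, rfl⟩
        exact ⟨hx, hσ⟩
      · rintro ⟨hx, hσ⟩
        exact ⟨_, hσ, hx, rfl⟩
    have e2 : μ (⋃ σ ∈ v, Hn μ P c n σ) = μ {x | x ∈ P ∧ res n (c x) ∈ v} := by
      rw [← e1]
      exact measure_biUnion_toMeasurable (to_countable v) _
    have e3 : P ⊆ (⋃ σ ∈ v, Hn μ P c n σ) ∪ ((Gd μ P c \ ⋃ σ ∈ v, Hn μ P c n σ) ∪
        Bad μ P c) := by
      intro x hx
      by_cases h1 : x ∈ ⋃ σ ∈ v, Hn μ P c n σ
      · exact Or.inl h1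
      · by_cases h2 : x ∈ Bad μ P c
        · exact Or.inr (Or.inr h2)
        · exact Or.inr (Or.inl ⟨⟨subset_toMeasurable μ P hx, h2⟩, h1⟩)
    calc μ P ≤ μ (⋃ σ ∈ v, Hn μ P c n σ) + (μ (Gd μ P c \ ⋃ σ ∈ v, Hn μ P c n σ) +
          μ (Bad μ P c)) :=
          (measure_mono e3).trans ((measure_union_le _ _).trans
            (add_le_add le_rfl (measure_union_le _ _)))
      _ ≤ μ {x | x ∈ P ∧ res n (c x) ∈ v} + ε := by
        rw [e2, measure_Bad μ h, add_zero]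
        exact add_le_add le_rfl hv
  refine ⟨{z : Can | (fun i : Fin n => z i) ∈ u}, isLevel_of_fin n u, ?_, ?_⟩
  · exact main u ((le_add_right le_rfl).trans (hu.trans hbound))
  · exact main uᶜ ((le_add_left le_rfl).trans (hu.trans hbound))

end

end Pool.Agent.Lib.A54
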